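import Pool.Agent.TG.Tc

/-!
# TG Y Dv: tangent vectors and derivatives of `u` in charts

`exists_lift_chart`: `x = a • χ.σ q₀`, `q₀ = χ.q x` (`Chart.surj`); `v` a local lift of `u` at `χ.σ q₀` (`TMap.loc`), `υ q = v (χ.σ q) + const` (`u (χ.σ q₀) - y ∈ Λ` by `TMap.smul`).
`exists_tan`: `w = a • fderiv χ.σ q₀ w'` (`tan_sigma`, homogeneity: `Tan X x v → Tan X (a • x) (a • v)`; `fderiv_q_smul`, `fderiv_sigma` of `AD/ChartBasic`).
`dv_iff`: `→`: let `γ, υ'` be from `DV`: `q (γ z)` is analytic at `0`, `γ z = a z • χ.σ (q (γ z))` (`AD.Chart.curve`), `υ' z - υ (χ.q (γ z)) ∈ Λ` near `0`, continuous, so constant near `0` (`Lat.disc`); differentiate: `deriv υ' 0 = fderiv υ q₀ (fderiv χ.q x w)`.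
`←`: `γ` from `Tan`, `υ' z = υ (χ.q (γ z))`.
`det_indep`: `K = {v : A v ∈ ℂ e}` has dimension `2`: `det (e, E) ≠ 0`, so `e, E_j` is a basis of `ℂ^(k+1)`, the `E_j` are in the range of `A`: the map `v ↦ A v mod ℂ e` is onto `ℂ^(k+1) / ℂ e` of dimension `k`, `K` is its kernel, of dimension `(k + 2) - k = 2` (rank-nullity).  If `v, w` are
linearly dependent both determinants are `0` (`Matrix.det_zero_of_row_eq` or linear dependence of rows).  Otherwise `K = span (v, w)`, `ℓ' j - ℓ j ∈ K` (`A (ℓ' j - ℓ j) = 0`), `ℓ' j = ℓ j + a_j v + b_j w`: the matrix with rows `v, w, ℓ'` is `U` times the one with rows `v, w, ℓ`, `U` lower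
triangular with diagonal `1` (`Matrix.det_of_lowerTriangular`) or use `Matrix.det_updateRow_add_smul_self` repeatedly.
-/

set_option autoImplicit false

open Topology Filter Metric

namespace Pool.Agent.TG

open Pool.Agent.H36.BP (EN fs wd)
open Pool.Agent.H14.PP (IsCone CurveAt Tan)
open Pool.Agent.H62.EF (MN pr)
open Pool.Agent.AD (Vd Chart Charts IsGerm)

variable {N k : ℕ}


variable {X : Set (EN N)} {Λ : AddSubgroup (Vd (k + 1))} {u : EN N → Vd (k + 1)}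

theorem DV.tan {x w : EN N} {E : Vd (k + 1)} (h : DV X Λ u x w E) : Tan X x w := by
  obtain ⟨γ, υ, h1, h2, h3, -⟩ := h
  exact ⟨γ, h1, h2, h3⟩

theorem DV.smul_pt (hX : IsCone X) (hu : TMap X Λ u) {x w : EN N} {E : Vd (k + 1)} (h : DV X Λ u x w E) {a : ℂ} (ha : a ≠ 0) :
    DV X Λ u (a • x) (a • w) E := by
  obtain ⟨γ, υ, h1, h2, h3, h4, h5, h6⟩ := h
  refine ⟨fun z => a • γ z, υ, ⟨AnalyticAt.fun_smul analyticAt_const h1.1, ?_⟩, ?_, ?_, h4, ?_, h6⟩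
  · filter_upwards [h1.2] with z hz
    exact hX.smul_mem _ hz a ha
  · show a • γ 0 = a • x
    rw [h2]
  · have h7 : HasDerivAt (fun z => a • γ z) (a • deriv γ 0) 0 := h1.1.differentiableAt.hasDerivAt.const_smul a
    rw [h7.deriv, h3]
  · filter_upwards [h1.2, h5] with z hz hz5
    exact smul_mem_lat hu hz hz5 ha

theorem exists_lift_chart (hX : IsCone X) (hu : TMap X Λ u) (χ : Chart (k + 2) X) {x : EN N} (hx : x ∈ X) (hU : x ∈ χ.U) {y : Vd (k + 1)}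
    (hy : u x - y ∈ Λ) : ∃ υ : Vd (k + 2) → Vd (k + 1), AnalyticAt ℂ υ (χ.q x) ∧ υ (χ.q x) = y ∧ ∀ᶠ q in 𝓝 (χ.q x), u (χ.σ q) - υ q ∈ Λ := by
  obtain ⟨hb, c, hc, hcx⟩ := χ.surj x hx hU
  have hσX : χ.σ (χ.q x) ∈ X := (χ.σ_mem _ hb).1
  have h1 : u (χ.σ (χ.q x)) - y ∈ Λ := by
    have h2 : u (c • χ.σ (χ.q x)) - u (χ.σ (χ.q x)) ∈ Λ := hu.smul _ hσX c hc
    rw [← hcx] at h2
    have h3 := Λ.sub_mem hy h2
    have e : u x - y - (u x - u (χ.σ (χ.q x))) = u (χ.σ (χ.q x)) - y := by abel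
    rwa [e] at h3
  obtain ⟨v, hv, hvl⟩ := hu.loc _ hσX
  have h4 : u (χ.σ (χ.q x)) - v (χ.σ (χ.q x)) ∈ Λ := hvl.self_of_nhds hσX
  have hσa : AnalyticAt ℂ χ.σ (χ.q x) := χ.σ_an _ hb
  refine ⟨fun q => v (χ.σ q) + (y - v (χ.σ (χ.q x))), ?_, ?_, ?_⟩
  · exact (AnalyticAt.fun_comp hv hσa).add analyticAt_const
  · show v (χ.σ (χ.q x)) + (y - v (χ.σ (χ.q x))) = y
    abel
  · have h5 : Tendsto χ.σ (𝓝 (χ.q x)) (𝓝 (χ.σ (χ.q x))) := hσa.continuousAt
    filter_upwards [h5.eventually hvl, isOpen_ball.mem_nhds hb] with q hq hqb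
    have h6 := hq (χ.σ_mem q hqb).1
    have h7 : y - v (χ.σ (χ.q x)) ∈ Λ := by
      have h8 := Λ.sub_mem h4 h1
      have e : u (χ.σ (χ.q x)) - v (χ.σ (χ.q x)) - (u (χ.σ (χ.q x)) - y) = y - v (χ.σ (χ.q x)) := by abel
      rwa [e] at h8
    have h9 := Λ.sub_mem h6 h7
    have e : u (χ.σ q) - v (χ.σ q) - (y - v (χ.σ (χ.q x))) = u (χ.σ q) - (v (χ.σ q) + (y - v (χ.σ (χ.q x)))) := by abel
    rwa [e] at h9

theorem exists_tan (hX : IsCone X) (χ : Chart (k + 2) X) {x : EN N} (hx : x ∈ X) (hU : x ∈ χ.U) (w' : Vd (k + 2)) :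
    ∃ w : EN N, Tan X x w ∧ fderiv ℂ χ.q x w = w' := by
  obtain ⟨hb, c, hc, hcx⟩ := χ.surj x hx hU
  obtain ⟨F, hF, hF0, hFd⟩ := tan_sigma χ hb w'
  have hm := χ.σ_mem _ hb
  refine ⟨c • fderiv ℂ χ.σ (χ.q x) w', ⟨fun z => c • F z, ⟨AnalyticAt.fun_smul analyticAt_const hF.1, ?_⟩, ?_, ?_⟩, ?_⟩
  · filter_upwards [hF.2] with z hz
    exact hX.smul_mem _ hz c hc
  · show c • F 0 = x
    rw [hF0, ← hcx]
  · have h1 : HasDerivAt (fun z => c • F z) (c • deriv F 0) 0 :=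
      hF.1.differentiableAt.hasDerivAt.const_smul c
    rw [h1.deriv, hFd]
  · have h1 := χ.fderiv_q_smul hm.2.1 (fderiv ℂ χ.σ (χ.q x) w') hc 0
    rw [zero_smul, add_zero, ← hcx] at h1
    rw [h1]
    exact χ.fderiv_sigma hb w'

/-- two analytic lifts which agree modulo a lattice differ by a constant -/
private theorem Dv_const (hΛ : Lat Λ) {f g : ℂ → Vd (k + 1)} (hf : ContinuousAt f 0) (hg : ContinuousAt g 0)
    (h : ∀ᶠ z in 𝓝 (0 : ℂ), f z - g z ∈ Λ) : ∀ᶠ z in 𝓝 (0 : ℂ), f z - g z = f 0 - g 0 := by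
  obtain ⟨δ, hδ, hd⟩ := hΛ.disc
  have h0 : f 0 - g 0 ∈ Λ := h.self_of_nhds
  have hc : ContinuousAt (fun z => (f z - g z) - (f 0 - g 0)) 0 := (hf.sub hg).sub continuousAt_const
  have h1 : ∀ᶠ z in 𝓝 (0 : ℂ), ‖(f z - g z) - (f 0 - g 0)‖ < δ := by
    apply hc.norm.eventually_lt_const
    simpa using hδ
  filter_upwards [h, h1] with z hz hz1
  exact sub_eq_zero.1 (hd _ (Λ.sub_mem hz h0) hz1)

theorem dv_iff (hX : IsCone X) (hu : TMap X Λ u) (hΛ : Lat Λ) (χ : Chart (k + 2) X) {x : EN N} (hx : x ∈ X) (hU : x ∈ χ.U)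
    {υ : Vd (k + 2) → Vd (k + 1)} (hυ : AnalyticAt ℂ υ (χ.q x)) (hl : ∀ᶠ q in 𝓝 (χ.q x), u (χ.σ q) - υ q ∈ Λ) {w : EN N} {E : Vd (k + 1)} :
    DV X Λ u x w E ↔ Tan X x w ∧ fderiv ℂ υ (χ.q x) (fderiv ℂ χ.q x w) = E := by
  -- along a curve
  have key : ∀ γ : ℂ → EN N, CurveAt X γ 0 → γ 0 = x → AnalyticAt ℂ (fun z => υ (χ.q (γ z))) 0 ∧
      HasDerivAt (fun z => υ (χ.q (γ z))) (fderiv ℂ υ (χ.q x) (fderiv ℂ χ.q x (deriv γ 0))) 0 ∧
      ∀ᶠ z in 𝓝 (0 : ℂ), u (γ z) - υ (χ.q (γ z)) ∈ Λ := by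
    intro γ hγ hγ0
    have hU' : γ 0 ∈ χ.U := by rw [hγ0]; exact hU
    obtain ⟨h1, h1d, c, hc, hc0, hev⟩ := χ.curve hX hγ hU'
    have hυ' : AnalyticAt ℂ υ (χ.q (γ 0)) := by rw [hγ0]; exact hυ
    refine ⟨AnalyticAt.fun_comp hυ' h1, ?_, ?_⟩
    · have h2 : HasDerivAt (fun z => χ.q (γ z)) (fderiv ℂ χ.q x (deriv γ 0)) 0 := by
        have h3 := h1.differentiableAt.hasDerivAt
        rw [h1d, hγ0] at h3
        exact h3
      have h4 : HasFDerivAt υ (fderiv ℂ υ (χ.q x)) (χ.q (γ 0)) := by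
        rw [hγ0]; exact hυ.differentiableAt.hasFDerivAt
      exact h4.comp_hasDerivAt (0 : ℂ) h2
    · have h5 : Tendsto (fun z => χ.q (γ z)) (𝓝 0) (𝓝 (χ.q x)) := by
        have h6 := h1.continuousAt.tendsto
        simpa only [hγ0] using h6
      have hcne : ∀ᶠ z in 𝓝 (0 : ℂ), c z ≠ 0 := hc.continuousAt.eventually_ne hc0
      filter_upwards [h5.eventually hl, hev, hcne] with z hz hz2 hz3
      have h7 := smul_mem_lat hu (χ.σ_mem _ hz2.1).1 hz hz3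
      rwa [← hz2.2] at h7
  constructor
  · rintro ⟨γ, υ', h1, h2, h3, h4, h5, h6⟩
    refine ⟨⟨γ, h1, h2, h3⟩, ?_⟩
    obtain ⟨k1, k2, k3⟩ := key γ h1 h2
    have h7 : ∀ᶠ z in 𝓝 (0 : ℂ), υ' z - υ (χ.q (γ z)) ∈ Λ := by
      filter_upwards [h5, k3] with z hz hz3
      have h8 := Λ.sub_mem hz3 hz
      have e : u (γ z) - υ (χ.q (γ z)) - (u (γ z) - υ' z) = υ' z - υ (χ.q (γ z)) := by abel
      rwa [e] at h8
    have h9 := Dv_const hΛ h4.continuousAt k1.continuousAt h7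
    have h10 : HasDerivAt υ' (fderiv ℂ υ (χ.q x) (fderiv ℂ χ.q x (deriv γ 0))) 0 := by
      have h11 := k2.add_const (υ' 0 - υ (χ.q (γ 0)))
      refine h11.congr_of_eventuallyEq ?_
      filter_upwards [h9] with z hz
      rw [← hz]
      abel
    rw [← h6, h10.deriv, h3]
  · rintro ⟨⟨γ, h1, h2, h3⟩, h4⟩
    obtain ⟨k1, k2, k3⟩ := key γ h1 h2
    refine ⟨γ, fun z => υ (χ.q (γ z)), h1, h2, h3, k1, k3, ?_⟩
    rw [k2.deriv, h3, h4]

private theorem Dv_rows_ne {v w : Vd (k + 2)} {ℓ : Fin k → Vd (k + 2)}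
    (h : (Matrix.of fun i j => (Fin.cons v (Fin.cons w ℓ) : Fin (k + 2) → Vd (k + 2)) i j).det ≠ 0) : LinearIndependent ℂ ![v, w] := by
  have h1 := Matrix.linearIndependent_rows_of_det_ne_zero h
  have h2 := h1.comp (![0, 1] : Fin 2 → Fin (k + 2)) (by
    intro i j hij
    fin_cases i <;> fin_cases j <;> simp_all)
  have e : ((fun i => Matrix.of (fun i j => (Fin.cons v (Fin.cons w ℓ) : Fin (k + 2) → Vd (k + 2)) i j) i) ∘
      (![0, 1] : Fin 2 → Fin (k + 2))) = ![v, w] := by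
    funext i
    fin_cases i <;> rfl
  exact e ▸ h2

private theorem Dv_span {A : Vd (k + 2) →ₗ[ℂ] Vd (k + 1)} {e : Vd (k + 1)} {E : Fin k → Vd (k + 1)}
    (hE : (Matrix.of fun i j => (Fin.cons e E : Fin (k + 1) → Vd (k + 1)) i j).det ≠ 0) {v w : Vd (k + 2)} {a b : ℂ} (hv : A v = a • e)
    (hw : A w = b • e) {ℓ : Fin k → Vd (k + 2)} (hℓ : ∀ j, A (ℓ j) = E j) (hvw : LinearIndependent ℂ ![v, w]) {x : Vd (k + 2)} (hx : A x = 0) :
    ∃ c d : ℂ, x = c • v + d • w := by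
  by_contra hne
  have h1 := Matrix.linearIndependent_rows_of_det_ne_zero hE
  rw [Fintype.linearIndependent_iff] at h1
  rw [LinearIndependent.pair_iff] at hvw
  have h2 : LinearIndependent ℂ (Sum.elim ![x, v, w] ℓ : Fin 3 ⊕ Fin k → Vd (k + 2)) := by
    rw [Fintype.linearIndependent_iff]
    intro g hg
    rw [Fintype.sum_sum_type] at hg
    simp only [Sum.elim_inl, Sum.elim_inr, Fin.sum_univ_three] at hg
    have hg' : g (Sum.inl 0) • x + g (Sum.inl 1) • v + g (Sum.inl 2) • w + ∑ j, g (Sum.inr j) • ℓ j = 0 := hg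
    have h3 := congrArg A hg'
    simp only [map_add, map_smul, map_sum, hx, hv, hw, hℓ, map_zero, smul_zero, zero_add] at h3
    have h4 := h1 (Fin.cons (g (Sum.inl 1) * a + g (Sum.inl 2) * b) fun j => g (Sum.inr j)) (by
      rw [Fin.sum_univ_succ]
      simp only [Fin.cons_zero, Fin.cons_succ]
      rw [← h3, add_smul, smul_smul, smul_smul]
      rfl)
    have h7 : ∀ j, g (Sum.inr j) = 0 := fun j => h4 j.succ
    simp only [h7, zero_smul, Finset.sum_const_zero, add_zero] at hg'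
    have h8 : g (Sum.inl 0) = 0 := by
      by_contra h9
      apply hne
      refine ⟨-(g (Sum.inl 0))⁻¹ * g (Sum.inl 1), -(g (Sum.inl 0))⁻¹ * g (Sum.inl 2), ?_⟩
      have h10 : g (Sum.inl 0) • x = -(g (Sum.inl 1) • v + g (Sum.inl 2) • w) := by
        rw [eq_neg_iff_add_eq_zero, ← add_assoc]; exact hg'
      have h11 : x = (g (Sum.inl 0))⁻¹ • (g (Sum.inl 0) • x) := by
        rw [smul_smul, inv_mul_cancel₀ h9, one_smul]
      rw [h11, h10, smul_neg, smul_add, smul_smul, smul_smul, neg_mul, neg_mul, neg_smul, neg_smul, neg_add]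
    rw [h8, zero_smul, zero_add] at hg'
    have h12 := hvw _ _ hg'
    rintro (i | j)
    · fin_cases i
      · exact h8
      · exact h12.1
      · exact h12.2
    · exact h7 j
  have h3 := h2.fintype_card_le_finrank
  simp at h3
  omega

theorem det_indep {A : Vd (k + 2) →ₗ[ℂ] Vd (k + 1)} {e : Vd (k + 1)} {E : Fin k → Vd (k + 1)}
    (hE : (Matrix.of fun i j => (Fin.cons e E : Fin (k + 1) → Vd (k + 1)) i j).det ≠ 0) {v w : Vd (k + 2)} {a b : ℂ} (hv : A v = a • e)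
    (hw : A w = b • e) {ℓ ℓ' : Fin k → Vd (k + 2)} (hℓ : ∀ j, A (ℓ j) = E j) (hℓ' : ∀ j, A (ℓ' j) = E j) :
    (Matrix.of fun i j => (Fin.cons v (Fin.cons w ℓ) : Fin (k + 2) → Vd (k + 2)) i j).det =
      (Matrix.of fun i j => (Fin.cons v (Fin.cons w ℓ') : Fin (k + 2) → Vd (k + 2)) i j).det := by
  by_cases hli : LinearIndependent ℂ ![v, w]
  · have h1 : ∀ j, ∃ c d : ℂ, ℓ j - ℓ' j = c • v + d • w := fun j =>
      Dv_span hE hv hw hℓ hli (by rw [map_sub, hℓ, hℓ', sub_self])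
    choose c d hcd using h1
    have h2 : ∀ j, ℓ j = ℓ' j + c j • v + d j • w := by
      intro j
      rw [add_assoc, ← hcd j]
      abel
    have e1 : (Matrix.of fun i j => (Fin.cons v (Fin.cons w fun j => ℓ' j + c j • v) : Fin (k + 2) → Vd (k + 2)) i j).det =
        (Matrix.of fun i j => (Fin.cons v (Fin.cons w ℓ') : Fin (k + 2) → Vd (k + 2)) i j).det := by
      refine Matrix.det_eq_of_forall_row_eq_smul_add_const (Fin.cons 0 (Fin.cons 0 c)) 0 rfl ?_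
      intro i j
      refine Fin.cases ?_ (fun i => ?_) i
      · simp
      · refine Fin.cases ?_ (fun i => ?_) i
        · simp
        · simp [Matrix.of_apply]
    have e2 : (Matrix.of fun i j => (Fin.cons v (Fin.cons w ℓ) : Fin (k + 2) → Vd (k + 2)) i j).det =
        (Matrix.of fun i j => (Fin.cons v (Fin.cons w fun j => ℓ' j + c j • v) : Fin (k + 2) → Vd (k + 2)) i j).det := by
      refine Matrix.det_eq_of_forall_row_eq_smul_add_const (Fin.cons 0 (Fin.cons 0 d)) 1 rfl ?_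
      intro i j
      refine Fin.cases ?_ (fun i => ?_) i
      · simp
      · refine Fin.cases ?_ (fun i => ?_) i
        · simp
        · have h3 := congrFun (h2 i) j
          have h4 : (Matrix.of fun i j => (Fin.cons v (Fin.cons w fun j => ℓ' j + c j • v) : Fin (k + 2) → Vd (k + 2)) i j) 1 j = w j := rfl
          rw [h4]
          simp only [Matrix.of_apply, Fin.cons_succ]
          rw [h3]
          simp
    rw [e2, e1]
  · have z : ∀ ℓ : Fin k → Vd (k + 2), (Matrix.of fun i j => (Fin.cons v (Fin.cons w ℓ) : Fin (k + 2) → Vd (k + 2)) i j).det = 0 := by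
      intro ℓ
      by_contra h
      exact hli (Dv_rows_ne h)
    rw [z, z]
end Pool.Agent.TG
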