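import Pool.Agent.TG.Y.Sl
import Pool.Agent.H62.BU.Inv

/-!
# TG Y LnE: the data exist

`exists_lat₀`: `Γ₀ = {a + b i : a, b ∈ M ℤ}` (e.g. the additive subgroup of the `z` with `z.re / M`, `z.im / M` integers), `M > R`; a nonzero element has norm `≥ M`; covering radius `≤ M`.

`exists_ln`: `κ` from `G.nc p` (`IsCoord D κ p`, all points of the fibre over `p` are `IsNC`), `κ'` a local inverse of `κ` at `p` (`Pool.Agent.H62.BU.local_inverse`), `c z = κ' (p + z • e)`, analytic near `0`, `c 0 = 0`, `κ (c z) = p + z • e` for `z` near `0`, so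
`fderiv κ 0 (deriv c 0) = e`.  If `(deriv c 0) 0 = 0` this contradicts `TransAt` (for `IsCoord D κ p`): `c_ne`.  `dt κ e c 0 ≠ 0`: a relation `a e + Σ b_j fr_j = 0` at `z = 0` gives `fderiv κ 0 (a deriv c 0 + Σ b_j e_{j+1}) = 0`, so (`IsCoord.inj`) `a (deriv c 0) 0 = 0`, `a = 0`,
`b_j = 0` (`Matrix.det_ne_zero` via linear independence of the rows, or `Matrix.exists_vecMul_eq_zero_iff`); `dt κ e c` is continuous at `0` (`fderiv` of an analytic function is analytic), so `dt ≠ 0` near `0`.  For `z ≠ 0` small `(c z) 0 ≠ 0` (`(c ·) 0` has a simple zero at `0`) and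
`c z` is near `0`, so `κ (c z) ∉ D` (`IsCoord.mem_iff`): `off`.  Choose `s > 0` small for all this and `4 s ‖e‖ < δ_Λ` (`Lat.disc`), and `Γ₀` from `exists_lat₀` with `R = 8 s`.
-/

set_option autoImplicit false

open Topology Filter Metric

namespace Pool.Agent.TG

open Pool.Agent.H36.BP (EN fs wd)
open Pool.Agent.H14.PP (IsCone CurveAt Tan)
open Pool.Agent.H62.EF (MN pr)
open Pool.Agent.AD (Vd Chart Charts IsGerm)

variable {N k : ℕ}


variable {X : Set (EN N)} {Λ : AddSubgroup (Vd (k + 1))} {u : EN N → Vd (k + 1)} {D B : Set (Vd (k + 1))}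
  {κ : Vd (k + 1) → Vd (k + 1)} {p e : Vd (k + 1)} {c : ℂ → Vd (k + 1)} {Γ₀ : AddSubgroup ℂ} {s : ℝ}

/-- the square lattice -/
private def sqLat (M : ℝ) : AddSubgroup ℂ where
  carrier := {z | ∃ a b : ℤ, z = (M : ℂ) * ((a : ℂ) + (b : ℂ) * Complex.I)}
  zero_mem' := ⟨0, 0, by simp⟩
  add_mem' := by
    rintro _ _ ⟨a, b, rfl⟩ ⟨a', b', rfl⟩
    exact ⟨a + a', b + b', by push_cast; ring⟩
  neg_mem' := by
    rintro _ ⟨a, b, rfl⟩
    exact ⟨-a, -b, by push_cast; ring⟩

private theorem sqLat_small {M : ℝ} (hM : 0 < M) {l : ℂ} (hl : l ∈ sqLat M) (h : ‖l‖ < M) : l = 0 := by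
  obtain ⟨a, b, rfl⟩ := hl
  rw [norm_mul, Complex.norm_real, Real.norm_of_nonneg hM.le] at h
  have h1 : ‖(a : ℂ) + (b : ℂ) * Complex.I‖ < 1 := by
    by_contra hcon
    push Not at hcon
    have : M * 1 ≤ M * ‖(a : ℂ) + (b : ℂ) * Complex.I‖ := mul_le_mul_of_nonneg_left hcon hM.le
    linarith
  have hre : ((a : ℂ) + (b : ℂ) * Complex.I).re = (a : ℝ) := by simp
  have him : ((a : ℂ) + (b : ℂ) * Complex.I).im = (b : ℝ) := by simp
  have h2 : |(a : ℝ)| < 1 := by
    rw [← hre]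
    exact (Complex.abs_re_le_norm _).trans_lt h1
  have h3 : |(b : ℝ)| < 1 := by
    rw [← him]
    exact (Complex.abs_im_le_norm _).trans_lt h1
  have h4 : a = 0 := by
    have h5 : |a| < 1 := by exact_mod_cast h2
    exact Int.abs_lt_one_iff.1 h5
  have h5 : b = 0 := by
    have h5 : |b| < 1 := by exact_mod_cast h3
    exact Int.abs_lt_one_iff.1 h5
  rw [h4, h5]
  simp

theorem exists_lat₀ (R : ℝ) : ∃ Γ₀ : AddSubgroup ℂ, Pool.Agent.H62.EF.Lat Γ₀ ∧ ∀ l ∈ Γ₀, ‖l‖ ≤ R → l = 0 := by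
  set M : ℝ := |R| + 1 with hMdef
  have hM : 0 < M := by positivity
  refine ⟨sqLat M, ⟨⟨M, hM, fun l hl h => sqLat_small hM hl h⟩, ⟨M * 2, by positivity, fun z => ?_⟩⟩, fun l hl h => sqLat_small hM hl ?_⟩
  · refine ⟨(M : ℂ) * (((round (z.re / M) : ℤ) : ℂ) + ((round (z.im / M) : ℤ) : ℂ) * Complex.I), ⟨_, _, rfl⟩, ?_⟩
    have hMC : (M : ℂ) ≠ 0 := by exact_mod_cast hM.ne'
    have h1 : z - (M : ℂ) * (((round (z.re / M) : ℤ) : ℂ) + ((round (z.im / M) : ℤ) : ℂ) * Complex.I) =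
        (M : ℂ) * (((z.re / M - round (z.re / M) : ℝ) : ℂ) + ((z.im / M - round (z.im / M) : ℝ) : ℂ) * Complex.I) := by
      generalize round (z.re / M) = a
      generalize round (z.im / M) = b
      push_cast
      field_simp
      conv_lhs => rw [← Complex.re_add_im z]
      ring
    rw [h1, norm_mul, Complex.norm_real, Real.norm_of_nonneg hM.le]
    refine mul_le_mul_of_nonneg_left ?_ hM.le
    refine (norm_add_le _ _).trans ?_
    rw [norm_mul, Complex.norm_I, mul_one, Complex.norm_real, Complex.norm_real, Real.norm_eq_abs, Real.norm_eq_abs]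
    have h2 := abs_sub_round (z.re / M)
    have h3 := abs_sub_round (z.im / M)
    linarith
  · have := le_abs_self R
    linarith

theorem exists_ln (G : Geo X Λ u D B) (hp : p ∈ D) (hpB : p ∉ B) (ht : TransAt D p e) :
    ∃ (κ : Vd (k + 1) → Vd (k + 1)) (c : ℂ → Vd (k + 1)) (Γ₀ : AddSubgroup ℂ) (s : ℝ), Ln X Λ u D κ p e c Γ₀ s := by
  obtain ⟨κ, hκ, hnc⟩ := G.nc p hp hpB
  obtain ⟨he, htr⟩ := ht
  obtain ⟨ψ, hψ, hψκ, hκψ, hψ0⟩ := Pool.Agent.H62.BU.local_inverse hκ.an (fun v hv => hκ.inj (by rw [hv, map_zero]))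
  rw [hκ.zero] at hψ hκψ hψ0
  set c : ℂ → Vd (k + 1) := fun z => ψ (p + z • e) with hcdef
  have hline : ∀ z : ℂ, HasDerivAt (fun z : ℂ => p + z • e) e z := by
    intro z
    have h4 : HasDerivAt (fun z : ℂ => z • e) ((1 : ℂ) • e) z := (hasDerivAt_id z).smul_const e
    rw [one_smul] at h4
    exact h4.const_add p
  have hlan : ∀ z : ℂ, AnalyticAt ℂ (fun z : ℂ => p + z • e) z := fun z =>
    analyticAt_const.add (AnalyticAt.fun_smul analyticAt_id analyticAt_const)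
  have hl0 : p + (0 : ℂ) • e = p := by simp
  have hlt : Tendsto (fun z : ℂ => p + z • e) (𝓝 0) (𝓝 p) := by
    have h1 := (hlan 0).continuousAt.tendsto
    rwa [hl0] at h1
  have hc0 : c 0 = 0 := by
    show ψ (p + (0 : ℂ) • e) = 0
    rw [hl0, hψ0]
  have hcan : AnalyticAt ℂ c 0 := AnalyticAt.fun_comp (g := ψ) (f := fun z : ℂ => p + z • e) (by rw [hl0]; exact hψ) (hlan 0)
  have hκc : ∀ᶠ z in 𝓝 (0 : ℂ), κ (c z) = p + z • e := hlt.eventually hκψ
  have hκan0 : AnalyticAt ℂ κ (c 0) := by rw [hc0]; exact hκ.an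
  have hcd : fderiv ℂ κ 0 (deriv c 0) = e := by
    have h1 : HasDerivAt (fun z => κ (c z)) (fderiv ℂ κ (c 0) (deriv c 0)) 0 :=
      hκan0.differentiableAt.hasFDerivAt.comp_hasDerivAt (0 : ℂ) hcan.differentiableAt.hasDerivAt
    rw [hc0] at h1
    exact h1.unique ((hline 0).congr_of_eventuallyEq hκc)
  have hcne : (deriv c 0) 0 ≠ 0 := fun h => htr κ hκ _ h hcd
  -- the determinant
  have hdt0 : dt κ e c 0 ≠ 0 := by
    intro h0
    obtain ⟨v, hv, hv0⟩ := Matrix.exists_vecMul_eq_zero_iff.2 h0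
    apply hv
    have h1 : v 0 • e + ∑ j : Fin k, v j.succ • fr κ c 0 j = 0 := by
      funext i
      have h2 := congrFun hv0 i
      rw [Matrix.vecMul, dotProduct, Fin.sum_univ_succ] at h2
      rw [Pi.add_apply, Finset.sum_apply]
      exact h2
    have h2 : fderiv ℂ κ 0 (v 0 • deriv c 0 + ∑ j : Fin k, v j.succ • (Pi.single j.succ 1 : Vd (k + 1))) = 0 := by
      rw [map_add, map_smul, hcd, map_sum]
      refine Eq.trans ?_ h1
      congr 1
      refine Finset.sum_congr rfl fun j _ => ?_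
      rw [map_smul, fr, hc0]
    have h3 : v 0 • deriv c 0 + ∑ j : Fin k, v j.succ • (Pi.single j.succ 1 : Vd (k + 1)) = 0 := hκ.inj (by rw [h2, map_zero])
    have h4 : v 0 = 0 := by
      have h5 := congrFun h3 0
      rw [Pi.add_apply, Finset.sum_apply, Finset.sum_eq_zero (fun j _ => by simp), add_zero, Pi.smul_apply, Pi.zero_apply, smul_eq_mul] at h5
      exact (mul_eq_zero.1 h5).resolve_right hcne
    funext i
    refine Fin.cases h4 (fun j => ?_) i
    have h5 := congrFun h3 j.succ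
    rw [h4, zero_smul, zero_add, Finset.sum_apply, Finset.sum_eq_single j] at h5
    · simpa using h5
    · intro b _ hb
      have h6 : (Pi.single b.succ 1 : Vd (k + 1)) j.succ = 0 := by
        rw [Pi.single_apply, if_neg]
        intro h7
        exact hb (Fin.succ_injective _ h7).symm
      rw [Pi.smul_apply, h6, smul_zero]
    · intro h
      exact absurd (Finset.mem_univ _) h
  have hdtc : ContinuousAt (dt κ e c) 0 := by
    have h1 : ContinuousAt (fun z : ℂ => (Matrix.of fun i j => (Fin.cons e (fr κ c z) : Fin (k + 1) → Vd (k + 1)) i j :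
        Matrix (Fin (k + 1)) (Fin (k + 1)) ℂ)) 0 := by
      refine continuousAt_pi.2 fun i => ?_
      refine Fin.cases ?_ (fun l => ?_) i
      · exact continuousAt_const
      · have h2 : ContinuousAt (fun z => fderiv ℂ κ (c z)) 0 :=
          ContinuousAt.comp (g := fderiv ℂ κ) (f := c) hκan0.fderiv.continuousAt hcan.continuousAt
        exact h2.clm_apply continuousAt_const
    have h2 : Continuous fun M : Matrix (Fin (k + 1)) (Fin (k + 1)) ℂ => M.det := continuous_id.matrix_det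
    exact ContinuousAt.comp (g := fun M : Matrix (Fin (k + 1)) (Fin (k + 1)) ℂ => M.det) h2.continuousAt h1
  -- points off `D`
  have hoff : ∀ᶠ z in 𝓝 (0 : ℂ), z ≠ 0 → p + z • e ∉ D := by
    have h1 : HasDerivAt (fun z => c z 0) (deriv c 0 0) 0 := hasDerivAt_pi.1 hcan.differentiableAt.hasDerivAt 0
    have h2 : ∀ᶠ z in 𝓝[≠] (0 : ℂ), c z 0 ≠ 0 := h1.eventually_ne hcne
    rw [eventually_nhdsWithin_iff] at h2
    have h3 : ∀ᶠ z in 𝓝 (0 : ℂ), (κ (c z) ∈ D ↔ c z 0 = 0) := by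
      have h4 := hcan.continuousAt.tendsto
      rw [hc0] at h4
      exact h4.eventually hκ.mem_iff
    filter_upwards [h2, h3, hκc] with z a1 a2 a3 hz
    rw [← a3, a2]
    exact a1 hz
  have hκan : ∀ᶠ z in 𝓝 (0 : ℂ), AnalyticAt ℂ κ (c z) := hcan.continuousAt.eventually hκan0.eventually_analyticAt
  obtain ⟨t, ht, hb⟩ := Metric.eventually_nhds_iff_ball.1
    (hcan.eventually_analyticAt.and (hκan.and (hκc.and ((hdtc.eventually_ne hdt0).and hoff))))
  obtain ⟨δ, hδ, hdisc⟩ := G.lat.disc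
  set s : ℝ := min (t / 2) (δ / (8 * (‖e‖ + 1))) with hsdef
  have hs : 0 < s := lt_min (by positivity) (by positivity)
  have hst : s < t := (min_le_left _ _).trans_lt (by linarith)
  have hmem : ∀ z : ℂ, ‖z‖ ≤ s → z ∈ ball (0 : ℂ) t := fun z hz => by
    rw [mem_ball_zero_iff]
    linarith
  obtain ⟨Γ₀, hΓ₀, hbig⟩ := exists_lat₀ (8 * s)
  refine ⟨κ, c, Γ₀, s, ⟨G.cone, G.charts, G.tor, G.lat, hΓ₀, hs, he, fun l hl hln => ?_, hbig, fun z hz hzs => (hb z (hmem z hzs)).2.2.2.2 hz,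
    G.sub, hnc, hc0, hcne, fun z hz => (hb z (hmem z (mem_closedBall_zero_iff.1 hz))).1, fun z hz => (hb z (hmem z (mem_closedBall_zero_iff.1 hz))).2.1,
    fun z hz => (hb z (hmem z (mem_closedBall_zero_iff.1 hz))).2.2.1, fun z hz => (hb z (hmem z (mem_closedBall_zero_iff.1 hz))).2.2.2.1⟩⟩
  refine hdisc l hl (hln.trans_lt ?_)
  have h1 : s ≤ δ / (8 * (‖e‖ + 1)) := min_le_right _ _
  have h2 : 0 ≤ ‖e‖ := norm_nonneg e
  calc 4 * s * ‖e‖ ≤ 4 * (δ / (8 * (‖e‖ + 1))) * (‖e‖ + 1) := by gcongr; linarith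
    _ = δ / 2 := by field_simp; ring
    _ < δ := by linarith

end Pool.Agent.TG
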