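import Pool.Agent.TG.Y.SlA
import Pool.Agent.H62.BU.Inv

/-!
# TG Y NcA: auxiliary lemmas for `NcY`: roots of germs, the coordinates `κ` are locally injective, the coordinate `t` on the line
-/

set_option autoImplicit false

open Topology Filter Metric

namespace Pool.Agent.TG

open Pool.Agent.H36.BP (EN fs wd)
open Pool.Agent.H14.PP (IsCone CurveAt Tan)
open Pool.Agent.H62.EF (MN pr)
open Pool.Agent.AD (Vd Chart Charts IsGerm)

variable {N k : ℕ}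

/-- roots of nonvanishing germs -/
theorem exists_germ_root {f : ℂ → ℂ} (hf : AnalyticAt ℂ f 0) (h0 : f 0 ≠ 0) {n : ℕ} (hn : 0 < n) :
    ∃ β : ℂ → ℂ, AnalyticAt ℂ β 0 ∧ β 0 ≠ 0 ∧ ∀ᶠ ξ in 𝓝 (0 : ℂ), β ξ ^ n = f ξ := by
  obtain ⟨c₀, hc₀⟩ := IsAlgClosed.exists_pow_nat_eq (f 0) hn
  have hc₀0 : c₀ ≠ 0 := by
    rintro rfl
    rw [zero_pow hn.ne'] at hc₀
    exact h0 hc₀.symm
  have hn0 : (n : ℂ) ≠ 0 := by exact_mod_cast hn.ne'
  have h1 : AnalyticAt ℂ (fun ξ => f ξ / f 0) 0 := hf.div analyticAt_const h0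
  have h2 : f 0 / f 0 = 1 := div_self h0
  have h3 : AnalyticAt ℂ (fun ξ => Complex.log (f ξ / f 0)) 0 := by
    refine h1.clog ?_
    rw [h2]
    exact Complex.one_mem_slitPlane
  have h4 : AnalyticAt ℂ (fun ξ => c₀ * Complex.exp (Complex.log (f ξ / f 0) / n)) 0 :=
    analyticAt_const.mul (h3.div analyticAt_const hn0).cexp
  refine ⟨_, h4, ?_, ?_⟩
  · exact mul_ne_zero hc₀0 (Complex.exp_ne_zero _)
  · filter_upwards [hf.continuousAt.eventually_ne h0] with ξ hξ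
    have h5 : f ξ / f 0 ≠ 0 := div_ne_zero hξ h0
    rw [mul_pow, ← Complex.exp_nat_mul, mul_div_cancel₀ _ hn0, Complex.exp_log h5, hc₀, mul_div_cancel₀ _ h0]

/-- the two factors -/
theorem exists_germ_roots {f : ℂ → ℂ} (hf : AnalyticAt ℂ f 0) (h0 : f 0 ≠ 0) {a b : ℕ} (hab : 0 < a + b) :
    ∃ β₁ β₂ : ℂ → ℂ, AnalyticAt ℂ β₁ 0 ∧ AnalyticAt ℂ β₂ 0 ∧ β₁ 0 ≠ 0 ∧ β₂ 0 ≠ 0 ∧ ∀ᶠ ξ in 𝓝 (0 : ℂ), β₁ ξ ^ a * β₂ ξ ^ b = f ξ := by
  rcases Nat.eq_zero_or_pos a with rfl | ha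
  · have hb : 0 < b := by omega
    obtain ⟨β, h1, h2, h3⟩ := exists_germ_root hf h0 hb
    refine ⟨fun _ => 1, β, analyticAt_const, h1, one_ne_zero, h2, ?_⟩
    filter_upwards [h3] with ξ hξ
    rw [pow_zero, one_mul, hξ]
  · obtain ⟨β, h1, h2, h3⟩ := exists_germ_root hf h0 ha
    refine ⟨β, fun _ => 1, h1, analyticAt_const, h2, one_ne_zero, ?_⟩
    filter_upwards [h3] with ξ hξ
    rw [one_pow, mul_one, hξ]

variable {X : Set (EN N)} {Λ : AddSubgroup (Vd (k + 1))} {u : EN N → Vd (k + 1)} {D B : Set (Vd (k + 1))}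
  {κ : Vd (k + 1) → Vd (k + 1)} {p e : Vd (k + 1)} {c : ℂ → Vd (k + 1)} {Γ₀ : AddSubgroup ℂ} {s : ℝ}

theorem Ln.κ_an0 (L : Ln X Λ u D κ p e c Γ₀ s) : AnalyticAt ℂ κ 0 := by
  have := L.κ_an 0 (mem_closedBall_self L.pos.le)
  rwa [L.c_zero] at this

theorem Ln.c_an0 (L : Ln X Λ u D κ p e c Γ₀ s) : AnalyticAt ℂ c 0 := L.c_an 0 (mem_closedBall_self L.pos.le)

theorem Ln.κ_zero (L : Ln X Λ u D κ p e c Γ₀ s) : κ 0 = p := by
  have := L.κ_c 0 (mem_closedBall_self L.pos.le)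
  rwa [L.c_zero, zero_smul, add_zero] at this

/-- `fderiv κ (c z) (c' z) = e` -/
theorem Ln.κ_deriv (L : Ln X Λ u D κ p e c Γ₀ s) {z : ℂ} (hz : ‖z‖ < s) : fderiv ℂ κ (c z) (deriv c z) = e := by
  have hzm : z ∈ closedBall (0 : ℂ) s := mem_closedBall_zero_iff.2 hz.le
  have h1 : HasDerivAt (fun z => κ (c z)) (fderiv ℂ κ (c z) (deriv c z)) z := by
    have h2 : HasFDerivAt κ (fderiv ℂ κ (c z)) (c z) := (L.κ_an z hzm).differentiableAt.hasFDerivAt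
    exact h2.comp_hasDerivAt z (L.c_an z hzm).differentiableAt.hasDerivAt
  have h3 : HasDerivAt (fun z : ℂ => p + z • e) e z := by
    have h4 : HasDerivAt (fun z : ℂ => z • e) ((1 : ℂ) • e) z := (hasDerivAt_id z).smul_const e
    rw [one_smul] at h4
    exact h4.const_add p
  have h4 : (fun z => κ (c z)) =ᶠ[𝓝 z] fun z => p + z • e := by
    have h5 : ∀ᶠ w in 𝓝 z, w ∈ ball (0 : ℂ) s := isOpen_ball.mem_nhds (mem_ball_zero_iff.2 hz)
    filter_upwards [h5] with w hw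
    exact L.κ_c w (ball_subset_closedBall hw)
  have h5 := h4.deriv_eq
  rw [h1.deriv, h3.deriv] at h5
  exact h5

/-- `κ` is a local biholomorphism at the points of the line -/
theorem Ln.κ_inj (L : Ln X Λ u D κ p e c Γ₀ s) {z : ℂ} (hz : ‖z‖ < s) : ∀ v, fderiv ℂ κ (c z) v = 0 → v = 0 := by
  have hzm : z ∈ closedBall (0 : ℂ) s := mem_closedBall_zero_iff.2 hz.le
  have hli : LinearIndependent ℂ (Fin.cons e (fr κ c z) : Fin (k + 1) → Vd (k + 1)) := Matrix.linearIndependent_rows_of_det_ne_zero (L.dt_ne z hzm)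
  have hspan := hli.span_eq_top_of_card_eq_finrank (by rw [Fintype.card_fin, Module.finrank_fin_fun])
  set A : Vd (k + 1) →ₗ[ℂ] Vd (k + 1) := (fderiv ℂ κ (c z) : Vd (k + 1) →ₗ[ℂ] Vd (k + 1)) with hA
  have hsurj : Function.Surjective A := by
    rw [← LinearMap.range_eq_top, ← top_le_iff, ← hspan, Submodule.span_le]
    rintro _ ⟨i, rfl⟩
    refine Fin.cases ?_ (fun j => ?_) i
    · exact ⟨deriv c z, L.κ_deriv hz⟩
    · exact ⟨Pi.single j.succ 1, rfl⟩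
  have hinj : Function.Injective A := LinearMap.injective_iff_surjective.2 hsurj
  intro v hv
  exact hinj (hv.trans (map_zero A).symm)

/-- the coordinate on the line and the graph -/
theorem Ln.exists_theta (L : Ln X Λ u D κ p e c Γ₀ s) : ∃ (θ θ₁ : ℂ → ℂ), AnalyticAt ℂ θ 0 ∧ θ 0 = 0 ∧ (∀ᶠ z in 𝓝 (0 : ℂ), θ (c z 0) = z) ∧
    (∀ᶠ ξ in 𝓝 (0 : ℂ), c (θ ξ) 0 = ξ) ∧ AnalyticAt ℂ θ₁ 0 ∧ θ₁ 0 ≠ 0 ∧ ∀ ξ, θ ξ = ξ * θ₁ ξ := by
  have hc := L.c_an0
  have ht : AnalyticAt ℂ (fun z => c z 0) 0 := ((ContinuousLinearMap.proj (R := ℂ) (φ := fun _ : Fin (k + 1) => ℂ) 0).analyticAt _).fun_comp hc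
  have hdt : HasDerivAt (fun z => c z 0) (deriv c 0 0) 0 := by
    have h1 := hasDerivAt_pi.1 hc.differentiableAt.hasDerivAt 0
    exact h1
  obtain ⟨θ, h1, h2, h3, h4⟩ := Pool.Agent.H62.BU.local_inverse ht (fun v hv => by
    have h5 : fderiv ℂ (fun z => c z 0) 0 v = v * deriv c 0 0 := by
      rw [hdt.hasFDerivAt.fderiv]
      simp
    rw [h5] at hv
    exact (mul_eq_zero.1 hv).resolve_right L.c_ne)
  have hc00 : c 0 0 = 0 := by
    rw [L.c_zero]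
    rfl
  simp only [hc00] at h1 h3 h4
  refine ⟨θ, dslope θ 0, h1, h4, h2, h3, ?_, ?_, fun ξ => ?_⟩
  · obtain ⟨P, hP⟩ := h1
    exact ⟨_, hP.has_fpower_series_dslope_fslope⟩
  · rw [dslope_same]
    intro h0
    have h5 : HasDerivAt (fun z => θ (c z 0)) (deriv θ 0 * deriv c 0 0) 0 := by
      have h6 : HasDerivAt θ (deriv θ 0) (c 0 0) := by
        rw [hc00]
        exact h1.differentiableAt.hasDerivAt
      exact h6.comp (0 : ℂ) hdt
    have h6 : (fun z => θ (c z 0)) =ᶠ[𝓝 0] fun z => z := h2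
    have h7 := h6.deriv_eq
    rw [h5.deriv, deriv_id'', h0, zero_mul] at h7
    exact zero_ne_one h7
  · have h5 := sub_smul_dslope θ 0 ξ
    rw [sub_zero, smul_eq_mul, h4, sub_zero] at h5
    exact h5.symm

/-- the frame is analytic -/
theorem Ln.fr_an (L : Ln X Λ u D κ p e c Γ₀ s) {z : ℂ} (hz : z ∈ closedBall (0 : ℂ) s) (j : Fin k) : AnalyticAt ℂ (fun z => fr κ c z j) z := by
  have h1 : AnalyticAt ℂ (fderiv ℂ κ) (c z) := (L.κ_an z hz).fderiv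
  have h2 : AnalyticAt ℂ (fun w => fderiv ℂ κ (c w)) z := h1.fun_comp (L.c_an z hz)
  exact ((ContinuousLinearMap.apply ℂ (Vd (k + 1)) (Pi.single j.succ 1 : Vd (k + 1))).analyticAt _).fun_comp h2

theorem Ln.dt_an (L : Ln X Λ u D κ p e c Γ₀ s) {z : ℂ} (hz : z ∈ closedBall (0 : ℂ) s) : AnalyticAt ℂ (dt κ e c) z := by
  have h1 : ∀ i j : Fin (k + 1), AnalyticAt ℂ (fun w => (Fin.cons e (fr κ c w) : Fin (k + 1) → Vd (k + 1)) i j) z := by
    intro i j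
    refine Fin.cases ?_ (fun i => ?_) i
    · exact analyticAt_const
    · exact ((ContinuousLinearMap.proj (R := ℂ) (φ := fun _ : Fin (k + 1) => ℂ) j).analyticAt _).fun_comp (L.fr_an hz i)
  have h2 : dt κ e c = fun w => ∑ σ : Equiv.Perm (Fin (k + 1)), (Equiv.Perm.sign σ : ℂ) * ∏ i, (Fin.cons e (fr κ c w) : Fin (k + 1) → Vd (k + 1)) (σ i) i := by
    funext w
    unfold dt
    rw [Matrix.det_apply']
    rfl
  rw [h2]
  refine Finset.analyticAt_fun_sum _ fun σ _ => analyticAt_const.mul (Finset.analyticAt_fun_prod _ fun i _ => h1 _ _)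

end Pool.Agent.TG
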