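import Pool.Agent.TG.Y.NcA
import Pool.Agent.H62.EL.Defs

/-!
# TG Y NcY: the slab is smooth and has normal crossings over `p`

Let `x₀ ∈ Y`, `wl x₀ ∈ Γ₀`; then `‖wl x₀‖ ≤ s` and `L.big` give `wl x₀ = 0`, `u x₀ - p ∈ Λ`.  Let `σ, τ, a, b` be from `L.nc x₀`: `u (σ q) - κ (nm a b q) ∈ Λ` for `q` near `0`.

The line in the coordinates `κ`: `t z = (c z) 0` has `t 0 = 0`, `t' 0 ≠ 0` (`L.c_ne`), so there is `θ` analytic at `0`, `θ 0 = 0`, `t (θ ξ) = ξ`, `θ (t z) = z` (`local_inverse` in `ℂ`, or `HasStrictDerivAt` inverse), `θ ξ = ξ * θ₁ ξ`, `θ₁` analytic at `0`, `θ₁ 0 ≠ 0`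
(`dslope`).  `g ξ = (fun j => (c (θ ξ)) j.succ)`, `g 0 = 0`; so `c (θ ξ) = cons ξ (g ξ)`.

Claim: for `q` near `0`: `σ q ∈ Y` iff `q_{j+2} = g (q 0 ^ a * q 1 ^ b) j` for all `j : Fin k`, and then `wl (σ q) = θ (q 0 ^ a * q 1 ^ b)`.  `→`: let `z = wl (σ q)`; `κ (nm a b q) - (p + z • e) ∈ Λ`; `κ (nm a b q)` is near `p` (`q` near `0`, `a + b > 0`), so this element of
`Λ` has norm `≤ small + s ‖e‖ ≤ 4 s ‖e‖` and is `0`: `κ (nm a b q) = p + z • e = κ (c z)`, so `z • e` is small, `z` is small, and as `κ` is injective near `0` (`fderiv κ 0` is injective: from `dt_ne 0` and `κ_c`; `local_inverse` for `κ` at `0`), `nm a b q = c z`, i.e. `q 0 ^ a * q 1 ^ b = t z`,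
`z = θ (q 0 ^ a * q 1 ^ b)`, `q_{j+2} = (c z) j.succ`.  `←`: `nm a b q = c (θ ξ)` with `ξ = q 0 ^ a * q 1 ^ b`, so `κ (nm a b q) = p + (θ ξ) • e`, `‖θ ξ‖ ≤ s`.

New coordinates: if `a > 0`: `x = q 0 * β (q 0 ^ a * q 1 ^ b)`, `y = q 1` with `β` analytic at `0`, `β ^ a = θ₁`, `β 0 ≠ 0` (an `a`-th root of a nonvanishing germ, e.g. `β = exp (log (θ₁ / θ₁ 0) / a) * const`); if `a = 0`, `b > 0`: `x = q 0`, `y = q 1 * β (q 0 ^ a * q 1 ^ b)`, `β ^ b = θ₁`.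
So `x ^ a * y ^ b = ξ θ₁ ξ = θ ξ = wl`.  The map `m : (q 0, q 1) ↦ (x, y)` has an injective derivative at `0` (case `a > 0`: `m = (q 0 * β(ξ), q 1)`; if `ξ = q 0 ^ a q 1 ^ b` its derivative at `0` is triangular with diagonal entries `β 0, 1`; note the case `a = 1`, `b = 0`:
`x = q 0 β (q 0)`), so it has a local inverse `ψ` (`local_inverse` in `ℂ × ℂ`).
`σ' (x, y) = σ (cons (ψ 1) (cons (ψ 2) (g (ψ 1 ^ a * ψ 2 ^ b))))`, `τ' w = m (τ w 0, τ w 1)`: `IsGermChart Y σ' τ'` (`σ' 0 = σ 0 = x₀`; `right`: for `w ∈ Y` near `x₀`: `w = c' • σ (τ w)`, so `σ (τ w) ∈ Y` and by the claim `τ w` is determined by `(τ w 0, τ w 1)`), and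
`wl (σ' (x, y)) - (0 + x ^ a * y ^ b) = 0 ∈ Γ₀`.
-/

set_option autoImplicit false

open Topology Filter Metric

namespace Pool.Agent.TG

open Pool.Agent.H36.BP (EN fs wd)
open Pool.Agent.H14.PP (IsCone CurveAt Tan)
open Pool.Agent.H62.EF (MN pr)
open Pool.Agent.AD (Vd Chart Charts IsGerm)

variable {N k : ℕ}


variable {X : Set (EN N)} {Λ : AddSubgroup (Vd (k + 1))} {u : EN N → Vd (k + 1)} {D B : Set (Vd (k + 1))}
  {κ : Vd (k + 1) → Vd (k + 1)} {p e : Vd (k + 1)} {c : ℂ → Vd (k + 1)} {Γ₀ : AddSubgroup ℂ} {s : ℝ}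

theorem Ln.isNC (L : Ln X Λ u D κ p e c Γ₀ s) : ∀ x ∈ Yl X Λ u p e s, wl Λ u p e s x - 0 ∈ Γ₀ →
    Pool.Agent.H62.EL.IsNC (Yl X Λ u p e s) Γ₀ (wl Λ u p e s) x 0 := by
  intro x₀ hx₀ hΓ
  have hwl := Ln.wl_spec hx₀
  have hw0 : wl Λ u p e s x₀ = 0 := by
    rw [sub_zero] at hΓ
    exact L.big _ hΓ (hwl.1.trans (by linarith [L.pos]))
  have hx₀p : u x₀ - p ∈ Λ := by
    have := hwl.2
    rwa [hw0, zero_smul, add_zero] at this
  obtain ⟨σ, τ, a, b, hg, hσ0, hab, hnm⟩ := L.nc x₀ hx₀.1 hx₀p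
  obtain ⟨θ, θ₁, hθ, hθ0, hθt, htθ, hθ₁, hθ₁0, hθm⟩ := L.exists_theta
  obtain ⟨β₁, β₂, hβ₁, hβ₂, hβ₁0, hβ₂0, hβ⟩ := exists_germ_roots hθ₁ hθ₁0 hab
  have hκi : ∀ v, fderiv ℂ κ 0 v = 0 → v = 0 := by
    have := L.κ_inj (z := 0) (by rw [norm_zero]; exact L.pos)
    rwa [L.c_zero] at this
  obtain ⟨κ', hκ', hκ'κ, -, hκ'0⟩ := Pool.Agent.H62.BU.local_inverse L.κ_an0 hκi
  rw [L.κ_zero] at hκ' hκ'0
  have hepos : 0 < ‖e‖ := norm_pos_iff.2 L.e_ne
  have hspos := L.pos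
  -- the function `ξ`
  set ξ : ℂ × ℂ → ℂ := fun w => w.1 ^ a * w.2 ^ b with hξ
  have hξan : AnalyticAt ℂ ξ 0 := by
    rw [hξ]
    exact (analyticAt_fst.pow a).mul (analyticAt_snd.pow b)
  have hpow0 : (0 : ℂ) ^ a * (0 : ℂ) ^ b = 0 := by rw [← pow_add, zero_pow hab.ne']
  have hξ0 : ξ 0 = 0 := hpow0
  -- the graph
  have hcθ : AnalyticAt ℂ (fun t => c (θ t)) 0 := by
    have h1 : AnalyticAt ℂ c (θ 0) := by
      rw [hθ0]
      exact L.c_an0
    exact h1.fun_comp hθ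
  set g : ℂ → Fin k → ℂ := fun t j => c (θ t) j.succ with hgd
  have hgan : ∀ j, AnalyticAt ℂ (fun w => g (ξ w) j) 0 := by
    intro j
    have h1 : AnalyticAt ℂ (fun t => c (θ t) j.succ) (ξ 0) := by
      rw [hξ0]
      exact ((ContinuousLinearMap.proj (R := ℂ) (φ := fun _ : Fin (k + 1) => ℂ) j.succ).analyticAt _).fun_comp hcθ
    exact h1.fun_comp hξan
  set emb : ℂ × ℂ → Vd (k + 2) := fun w => Fin.cons (α := fun _ => ℂ) w.1 (Fin.cons (α := fun _ => ℂ) w.2 (g (ξ w))) with hembd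
  have hemb : AnalyticAt ℂ emb 0 := by
    rw [hembd]
    refine analyticAt_pi_iff.2 fun i => ?_
    refine Fin.cases ?_ (fun i => ?_) i
    · exact analyticAt_fst
    · refine Fin.cases ?_ (fun j => ?_) i
      · exact analyticAt_snd
      · exact hgan j
  have hemb0 : emb 0 = 0 := by
    funext i
    refine Fin.cases rfl (fun i => ?_) i
    refine Fin.cases rfl (fun j => ?_) i
    show c (θ (ξ 0)) j.succ = 0
    rw [hξ0, hθ0, L.c_zero]
    rfl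
  have hnm0 : nm a b (0 : Vd (k + 2)) = 0 := by
    funext i
    refine Fin.cases ?_ (fun i => rfl) i
    exact hpow0
  have hnmc : ContinuousAt (nm (k := k) a b) 0 := by
    refine continuousAt_pi.2 fun i => ?_
    refine Fin.cases ?_ (fun i => ?_) i
    · show ContinuousAt (fun q : Vd (k + 2) => q 0 ^ a * q 1 ^ b) 0
      fun_prop
    · exact (continuous_apply (i.succ.succ : Fin (k + 2))).continuousAt
  have hnme : ∀ w : ℂ × ℂ, c (θ (ξ w)) 0 = ξ w → nm a b (emb w) = c (θ (ξ w)) := by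
    intro w hw
    funext i
    refine Fin.cases ?_ (fun i => rfl) i
    rw [hw]
    rfl
  -- Claim A
  have hA : ∀ᶠ w in 𝓝 (0 : ℂ × ℂ), σ (emb w) ∈ Yl X Λ u p e s ∧ wl Λ u p e s (σ (emb w)) = θ (ξ w) := by
    have t1 : Tendsto emb (𝓝 0) (𝓝 0) := by
      have := hemb.continuousAt.tendsto
      rwa [hemb0] at this
    have t2 : Tendsto ξ (𝓝 0) (𝓝 0) := by
      have := hξan.continuousAt.tendsto
      rwa [hξ0] at this
    have t3 : Tendsto (fun w => θ (ξ w)) (𝓝 0) (𝓝 0) := by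
      have h1 := hθ.continuousAt.tendsto
      rw [hθ0] at h1
      exact h1.comp t2
    filter_upwards [t1.eventually hg.σ_mem, t1.eventually hnm, t2.eventually htθ, t3.eventually (closedBall_mem_nhds (0 : ℂ) L.pos)] with w h1 h2 h3 h4
    have h5 : ‖θ (ξ w)‖ ≤ s := mem_closedBall_zero_iff.1 h4
    rw [hnme w h3, L.κ_c _ h4] at h2
    exact ⟨⟨h1, θ (ξ w), h5, h2⟩, L.wl_eq h5 h2⟩
  -- Claim B
  have hB : ∀ᶠ q in 𝓝 (0 : Vd (k + 2)), σ q ∈ Yl X Λ u p e s → q = emb (q 0, q 1) := by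
    have h1 : ∀ᶠ z in 𝓝 (0 : ℂ), κ' (p + z • e) = c z ∧ θ (c z 0) = z := by
      have t1 : Tendsto c (𝓝 0) (𝓝 0) := by
        have := L.c_an0.continuousAt.tendsto
        rwa [L.c_zero] at this
      filter_upwards [t1.eventually hκ'κ, closedBall_mem_nhds (0 : ℂ) L.pos, hθt] with z h2 h3 h4
      rw [L.κ_c z h3] at h2
      exact ⟨h2, h4⟩
    obtain ⟨η, hη, h2⟩ := Metric.eventually_nhds_iff.1 h1
    have t2 : Tendsto (nm (k := k) a b) (𝓝 0) (𝓝 0) := by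
      have := hnmc.tendsto
      rwa [hnm0] at this
    have t3 : Tendsto (fun q => κ (nm a b q)) (𝓝 (0 : Vd (k + 2))) (𝓝 p) := by
      have h3 := L.κ_an0.continuousAt.tendsto
      rw [L.κ_zero] at h3
      exact h3.comp t2
    have hpos : 0 < min (s * ‖e‖) (η * ‖e‖) := lt_min (by positivity) (by positivity)
    filter_upwards [hnm, t3.eventually (ball_mem_nhds p hpos), t2.eventually hκ'κ] with q h3 h4 h5 hqY
    rw [dist_eq_norm] at h4
    have h6 := Ln.wl_spec hqY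
    set z := wl Λ u p e s (σ q) with hz
    have h7 : κ (nm a b q) - (p + z • e) = 0 := by
      refine L.small _ ?_ ?_
      · have h8 : κ (nm a b q) - (p + z • e) = (u (σ q) - (p + z • e)) - (u (σ q) - κ (nm a b q)) := by abel
        rw [h8]
        exact Λ.sub_mem h6.2 h3
      · have h8 : κ (nm a b q) - (p + z • e) = (κ (nm a b q) - p) - z • e := by abel
        rw [h8]
        refine (norm_sub_le _ _).trans ?_
        rw [norm_smul]
        have h9 := h4.trans_le (min_le_left _ _)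
        have h10 := mul_le_mul_of_nonneg_right h6.1 (norm_nonneg e)
        have h11 := mul_nonneg L.pos.le (norm_nonneg e)
        linarith
    have h8 : κ (nm a b q) = p + z • e := sub_eq_zero.1 h7
    have h9 : ‖z‖ < η := by
      have h10 := h4.trans_le (min_le_right _ _)
      rw [h8, add_sub_cancel_left, norm_smul] at h10
      exact lt_of_mul_lt_mul_right h10 (norm_nonneg e)
    obtain ⟨h10, h11⟩ := h2 (y := z) (by rwa [dist_zero_right])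
    have h12 : nm a b q = c z := by
      rw [← h5, h8, h10]
    have h13 : ξ (q 0, q 1) = c z 0 := by
      rw [← h12]
      rfl
    funext i
    refine Fin.cases rfl (fun i => ?_) i
    refine Fin.cases rfl (fun j => ?_) i
    show q j.succ.succ = c (θ (ξ (q 0, q 1))) j.succ
    rw [h13, h11, ← h12]
    rfl
  -- the new coordinates
  set m : ℂ × ℂ → ℂ × ℂ := fun w => (w.1 * β₁ (ξ w), w.2 * β₂ (ξ w)) with hm
  have hβ₁ξ : AnalyticAt ℂ (fun w => β₁ (ξ w)) 0 := by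
    have h1 : AnalyticAt ℂ β₁ (ξ 0) := by rwa [hξ0]
    exact h1.fun_comp hξan
  have hβ₂ξ : AnalyticAt ℂ (fun w => β₂ (ξ w)) 0 := by
    have h1 : AnalyticAt ℂ β₂ (ξ 0) := by rwa [hξ0]
    exact h1.fun_comp hξan
  have hman : AnalyticAt ℂ m 0 := (analyticAt_fst.mul hβ₁ξ).prod (analyticAt_snd.mul hβ₂ξ)
  have hm0 : m 0 = 0 := by
    show ((0 : ℂ) * _, (0 : ℂ) * _) = 0
    rw [zero_mul, zero_mul]
    rfl
  have hmd : ∀ v, fderiv ℂ m 0 v = (v.1 * β₁ 0, v.2 * β₂ 0) := by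
    intro v
    have h1 : HasFDerivAt (fun w : ℂ × ℂ => w.1 * β₁ (ξ w)) ((0 : ℂ × ℂ).1 • fderiv ℂ (fun w => β₁ (ξ w)) 0 + β₁ (ξ 0) • ContinuousLinearMap.fst ℂ ℂ ℂ) 0 :=
      hasFDerivAt_fst.mul hβ₁ξ.differentiableAt.hasFDerivAt
    have h2 : HasFDerivAt (fun w : ℂ × ℂ => w.2 * β₂ (ξ w)) ((0 : ℂ × ℂ).2 • fderiv ℂ (fun w => β₂ (ξ w)) 0 + β₂ (ξ 0) • ContinuousLinearMap.snd ℂ ℂ ℂ) 0 :=
      hasFDerivAt_snd.mul hβ₂ξ.differentiableAt.hasFDerivAt
    have h3 := h1.prodMk h2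
    have h4 : fderiv ℂ m 0 = _ := h3.fderiv
    rw [h4]
    simp only [ContinuousLinearMap.prod_apply, _root_.add_apply, _root_.smul_apply, ContinuousLinearMap.coe_fst', ContinuousLinearMap.coe_snd', smul_eq_mul,
      Prod.fst_zero, Prod.snd_zero, zero_mul, zero_add, hξ0]
    rw [mul_comm (β₁ 0), mul_comm (β₂ 0)]
  obtain ⟨ψ, hψ, hψm, hmψ, hψ0⟩ := Pool.Agent.H62.BU.local_inverse hman (fun v hv => by
    rw [hmd] at hv
    have h1 : v.1 * β₁ 0 = 0 := congrArg Prod.fst hv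
    have h2 : v.2 * β₂ 0 = 0 := congrArg Prod.snd hv
    exact Prod.ext ((mul_eq_zero.1 h1).resolve_right hβ₁0) ((mul_eq_zero.1 h2).resolve_right hβ₂0))
  rw [hm0] at hψ hmψ hψ0
  have tψ : Tendsto ψ (𝓝 0) (𝓝 0) := by
    have := hψ.continuousAt.tendsto
    rwa [hψ0] at this
  have tembψ : Tendsto (fun r => emb (ψ r)) (𝓝 0) (𝓝 0) := by
    have h1 := hemb.continuousAt.tendsto
    rw [hemb0] at h1
    exact h1.comp tψ
  have hembψ : AnalyticAt ℂ (fun r => emb (ψ r)) 0 := by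
    have h1 : AnalyticAt ℂ emb (ψ 0) := by rwa [hψ0]
    exact h1.fun_comp hψ
  have hτ0 : τ (σ 0) = 0 := hg.left.self_of_nhds
  have hσ'0 : σ (emb (ψ 0)) = σ 0 := by rw [hψ0, hemb0]
  have hpair : AnalyticAt ℂ (fun y => (τ y 0, τ y 1)) (σ 0) :=
    (((ContinuousLinearMap.proj (R := ℂ) (φ := fun _ : Fin (k + 2) => ℂ) 0).analyticAt _).fun_comp hg.τ_an).prod
      (((ContinuousLinearMap.proj (R := ℂ) (φ := fun _ : Fin (k + 2) => ℂ) 1).analyticAt _).fun_comp hg.τ_an)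
  have hpair0 : ((τ (σ 0) 0, τ (σ 0) 1) : ℂ × ℂ) = 0 := by rw [hτ0]; rfl
  have tpair : Tendsto (fun y => ((τ y 0, τ y 1) : ℂ × ℂ)) (𝓝 (σ 0)) (𝓝 0) := by
    have := hpair.continuousAt.tendsto
    rwa [hpair0] at this
  refine ⟨fun r => σ (emb (ψ r)), fun y => m (τ y 0, τ y 1), a, b, ?_, ?_, hab, ?_⟩
  · refine ⟨?_, ?_, ?_, ?_, ?_, ?_⟩
    · have h1 : AnalyticAt ℂ σ (emb (ψ 0)) := by rw [hψ0, hemb0]; exact hg.σ_an
      exact AnalyticAt.fun_comp (g := σ) (f := fun r => emb (ψ r)) h1 hembψ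
    · filter_upwards [tψ.eventually hA] with r hr
      exact hr.1
    · show AnalyticAt ℂ (fun y => m (τ y 0, τ y 1)) (σ (emb (ψ 0)))
      rw [hσ'0]
      have h1 : AnalyticAt ℂ m (τ (σ 0) 0, τ (σ 0) 1) := by rw [hpair0]; exact hman
      exact AnalyticAt.fun_comp (g := m) (f := fun y => ((τ y 0, τ y 1) : ℂ × ℂ)) h1 hpair
    · filter_upwards [tembψ.eventually hg.left, hmψ] with r h1 h2
      show m (τ (σ (emb (ψ r))) 0, τ (σ (emb (ψ r))) 1) = r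
      rw [h1]
      exact h2
    · show ∀ᶠ y in 𝓝 (σ (emb (ψ 0))), _
      rw [hσ'0]
      have tτ : Tendsto τ (𝓝 (σ 0)) (𝓝 0) := by
        have := hg.τ_an.continuousAt.tendsto
        rwa [hτ0] at this
      filter_upwards [hg.right, tτ.eventually hB, tpair.eventually hψm] with y h1 h2 h3 hyY
      obtain ⟨c', hc', hyc⟩ := h1 hyY.1
      have h4 : σ (τ y) ∈ Yl X Λ u p e s := by
        have h5 := L.isCone.smul_mem y hyY c'⁻¹ (inv_ne_zero hc')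
        have h6 : c'⁻¹ • y = σ (τ y) := by
          conv_lhs => rw [hyc]
          rw [smul_smul, inv_mul_cancel₀ hc', one_smul]
        rwa [h6] at h5
      refine ⟨c', hc', ?_⟩
      show y = c' • σ (emb (ψ (m (τ y 0, τ y 1))))
      rw [h3, ← h2 h4]
      exact hyc
    · show ∀ᶠ z in 𝓝 (σ (emb (ψ 0)), (1 : ℂ)), _
      rw [hσ'0]
      filter_upwards [hg.inv] with z hz
      show m (τ (z.2 • z.1) 0, τ (z.2 • z.1) 1) = m (τ z.1 0, τ z.1 1)
      rw [hz]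
  · show σ (emb (ψ 0)) = x₀
    rw [hσ'0, hσ0]
  · have tξψ : Tendsto (fun r => ξ (ψ r)) (𝓝 0) (𝓝 0) := by
      have h1 := hξan.continuousAt.tendsto
      rw [hξ0] at h1
      exact h1.comp tψ
    filter_upwards [tψ.eventually hA, hmψ, tξψ.eventually hβ] with r h1 h2 h3
    have h4 : r.1 ^ a * r.2 ^ b = θ (ξ (ψ r)) := by
      have h5 : r.1 = (ψ r).1 * β₁ (ξ (ψ r)) := (congrArg Prod.fst h2).symm
      have h6 : r.2 = (ψ r).2 * β₂ (ξ (ψ r)) := (congrArg Prod.snd h2).symm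
      rw [h5, h6, hθm, ← h3, mul_pow, mul_pow]
      show _ = (ψ r).1 ^ a * (ψ r).2 ^ b * _
      ring
    rw [h1.2, h4, zero_add, sub_self]
    exact Γ₀.zero_mem

end Pool.Agent.TG
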