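import Pool.Agent.TG.Y.Rf
import Pool.Agent.TG.Un
import Pool.Agent.H14.PP.ChartBasic

/-!
# TG Y Br: short paths in the slab

`sl y = cons y.2 (ρ⁻¹ (p + (z₀ + r y.1) e - c'))`: the slice of the straight chart `χ` over the line.

`Ln.slice_chart`: `r > 0` small: for `‖y.1‖ < 2`: `‖z₀ + r y.1‖ < s` and the tail of `sl y` stays in the open ball of radius `2` (at `y.1 = 0` it is `tl q₀`).  `U' = {x ∈ χ.U : ‖tl (χ.q x) - tl q₀‖ < η', ‖q'₁ x‖ < 2}`, `q' x = ((ℓ (ms c' ρ (χ.q x) - p) - z₀) / r, (χ.q x) 0)` with a linear form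
`ℓ`, `ℓ e = 1`; `η'` such that `ρ η' ≤ s ‖e‖` and `r` small w.r.t. `η'` (so that `sl y` satisfies the conditions).  `surj`: let `x ∈ Y ∩ U'`: `ms c' ρ (χ.q x) - (p + wl x • e) ∈ Λ` has norm `≤ ρ η' + ‖(z₀ - wl x) • e‖ ≤ s ‖e‖ + 2 s ‖e‖`, so it is `0` (`L.small`): `χ.q x = sl (q' x)`, and
`x = a • χ.σ (χ.q x)`.  `σ_mem`: `χ.σ (sl y) ∈ X` is over `p + (z₀ + r y.1) • e` (`Str.lift`), `wl = z₀ + r y.1` (`Ln.wl_eq`).  `Mon`: `mo z₀ r 1 0 y = z₀ + r y.1`.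

`Ln.slice_tc`: `form_eq` at `x = χ.σ (sl y)` with the vectors `∂₁ = fderiv χ'.σ y (1, 0) = fderiv χ.σ (sl y) (cons 0 ((r / ρ) e))`, `∂₂ = fderiv χ.σ (sl y) (Pi.single 0 1)` and the frame `ℓ j = fderiv χ.σ (sl y) (cons 0 (ρ⁻¹ fr_j))` (`dv_iff` with `υ = ms c' ρ`; `wl x = z₀ + r y.1`); `toFun_eq`:
the matrix has the rows `(0, (r / ρ) e)`, `(1, 0)`, `(0, ρ⁻¹ fr_j)`; its determinant is `- (r / ρ) ρ⁻ᵏ dt` (expand along the row `1` or the column `0`: `Matrix.det_succ_column_zero`).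

`Ln.irel_bridge`: let `χ, c', ρ, A, q, q'` be from `IRel`: `ms c' ρ q = p + z • e = ms c' ρ q'`, so `tl q = tl q'`.  `χ', r` from `slice_chart` with `z₀ = z`, `q₀ = q`; `A' y = - (r / ρ ^ (k + 1)) * dt κ e c (z + r y.1) * A (sl y)` is a primitive of the restricted form (`slice_tc`, `IsPrim` for `χ`;
analytic: `dt` is analytic at points of norm `< s`: `L.κ_an`, `L.c_an`); the points `(0, q 0)`, `(0, q' 0)` have `sl = q, q'`.  `v' = (A' (0, q' 0) - A' (0, q 0)) / r = - dt κ e c z * v`.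
-/

set_option autoImplicit false

open Topology Filter Metric

namespace Pool.Agent.TG

open Pool.Agent.H36.BP (EN fs wd)
open Pool.Agent.H14.PP (IsCone CurveAt Tan)
open Pool.Agent.H62.EF (MN pr)
open Pool.Agent.AD (Vd Chart Charts IsGerm)

variable {N k : ℕ}


variable {X : Set (EN N)} {Λ : AddSubgroup (Vd (k + 1))} {u : EN N → Vd (k + 1)} {D B : Set (Vd (k + 1))}
  {κ : Vd (k + 1) → Vd (k + 1)} {p e : Vd (k + 1)} {c : ℂ → Vd (k + 1)} {Γ₀ : AddSubgroup ℂ} {s : ℝ}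

/-- the slice of a straight chart over the line -/
noncomputable def slc (p e c' : Vd (k + 1)) (ρ : ℝ) (z₀ : ℂ) (r : ℝ) (y : ℂ × ℂ) : Vd (k + 2) :=
  Fin.cons (α := fun _ => ℂ) y.2 ((ρ : ℂ)⁻¹ • (p + (z₀ + r * y.1) • e - c'))

private theorem Br_slc_zero (p e c' : Vd (k + 1)) (ρ : ℝ) (z₀ : ℂ) (r : ℝ) (y : ℂ × ℂ) : slc p e c' ρ z₀ r y 0 = y.2 := rfl

private theorem Br_slc_tl (p e c' : Vd (k + 1)) (ρ : ℝ) (z₀ : ℂ) (r : ℝ) (y : ℂ × ℂ) :
    tl (slc p e c' ρ z₀ r y) = (ρ : ℂ)⁻¹ • (p + (z₀ + r * y.1) • e - c') := rfl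

private theorem Br_slc_ms (p e c' : Vd (k + 1)) {ρ : ℝ} (hρ : 0 < ρ) (z₀ : ℂ) (r : ℝ) (y : ℂ × ℂ) :
    ms c' ρ (slc p e c' ρ z₀ r y) = p + (z₀ + r * y.1) • e := by
  have h1 : (ρ : ℂ) ≠ 0 := by exact_mod_cast hρ.ne'
  unfold ms
  rw [Br_slc_tl, smul_smul, mul_inv_cancel₀ h1, one_smul]
  abel

/-- two points of the model space with the same first coordinate and tail -/
private theorem Br_ext {a b : Vd (k + 2)} (h0 : a 0 = b 0) (h1 : tl a = tl b) : a = b := by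
  funext i
  refine Fin.cases h0 (fun j => congrFun h1 j) i

private theorem Br_slc_eq (p e c' : Vd (k + 1)) {ρ : ℝ} (hρ : 0 < ρ) (z₀ : ℂ) (r : ℝ) {y : ℂ × ℂ} {q : Vd (k + 2)}
    (h0 : q 0 = y.2) (h1 : ms c' ρ q = p + (z₀ + r * y.1) • e) : slc p e c' ρ z₀ r y = q := by
  have h2 : (ρ : ℂ) ≠ 0 := by exact_mod_cast hρ.ne'
  refine Br_ext h0.symm ?_
  rw [Br_slc_tl, ← h1]
  unfold ms
  rw [add_sub_cancel_left, smul_smul, inv_mul_cancel₀ h2, one_smul]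

/-- the linear part of `slc` -/
private noncomputable def Br_slL (e : Vd (k + 1)) (ρ r : ℝ) : ℂ × ℂ →L[ℂ] Vd (k + 2) :=
  ContinuousLinearMap.pi (Fin.cons (α := fun _ => ℂ × ℂ →L[ℂ] ℂ) (ContinuousLinearMap.snd ℂ ℂ ℂ)
    fun i : Fin (k + 1) => ((ρ : ℂ)⁻¹ * (r * e i)) • ContinuousLinearMap.fst ℂ ℂ ℂ)

private theorem Br_slL_apply (e : Vd (k + 1)) (ρ r : ℝ) (w : ℂ × ℂ) :
    Br_slL e ρ r w = Fin.cons (α := fun _ => ℂ) w.2 ((ρ : ℂ)⁻¹ • ((r * w.1) • e)) := by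
  funext i
  refine Fin.cases rfl (fun j => ?_) i
  show ((ρ : ℂ)⁻¹ * (r * e j)) * w.1 = (ρ : ℂ)⁻¹ * ((r * w.1) * e j)
  ring

private theorem Br_slc_affine (p e c' : Vd (k + 1)) (ρ : ℝ) (z₀ : ℂ) (r : ℝ) (y : ℂ × ℂ) :
    slc p e c' ρ z₀ r y = Br_slL e ρ r y + slc p e c' ρ z₀ r 0 := by
  rw [Br_slL_apply]
  funext i
  refine Fin.cases ?_ (fun j => ?_) i
  · show y.2 = y.2 + 0
    ring
  · show (ρ : ℂ)⁻¹ * (p j + (z₀ + r * y.1) * e j - c' j) = (ρ : ℂ)⁻¹ * ((r * y.1) * e j) + (ρ : ℂ)⁻¹ * (p j + (z₀ + r * 0) * e j - c' j)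
    ring

private theorem Br_slc_deriv (p e c' : Vd (k + 1)) (ρ : ℝ) (z₀ : ℂ) (r : ℝ) (y : ℂ × ℂ) :
    HasFDerivAt (slc p e c' ρ z₀ r) (Br_slL e ρ r) y := by
  have h1 : slc p e c' ρ z₀ r = fun y => Br_slL e ρ r y + slc p e c' ρ z₀ r 0 := funext fun y => Br_slc_affine p e c' ρ z₀ r y
  rw [h1]
  exact (Br_slL e ρ r).hasFDerivAt.add_const _

private theorem Br_slc_an (p e c' : Vd (k + 1)) (ρ : ℝ) (z₀ : ℂ) (r : ℝ) (y : ℂ × ℂ) : AnalyticAt ℂ (slc p e c' ρ z₀ r) y := by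
  have h1 : slc p e c' ρ z₀ r = fun y => Br_slL e ρ r y + slc p e c' ρ z₀ r 0 := funext fun y => Br_slc_affine p e c' ρ z₀ r y
  rw [h1]
  exact ((Br_slL e ρ r).analyticAt y).add analyticAt_const

private theorem Br_ball_iff (y : ℂ × ℂ) {R : ℝ} : y ∈ ball (0 : ℂ × ℂ) R ↔ ‖y.1‖ < R ∧ ‖y.2‖ < R := by
  rw [mem_ball_zero_iff, Prod.norm_def, max_lt_iff]

private theorem Br_ball_iff' (q : Vd (k + 2)) : q ∈ ball (0 : Vd (k + 2)) 2 ↔ ‖q 0‖ < 2 ∧ ‖tl q‖ < 2 := by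
  rw [mem_ball_zero_iff, pi_norm_lt_iff (by norm_num : (0 : ℝ) < 2), pi_norm_lt_iff (by norm_num : (0 : ℝ) < 2)]
  constructor
  · intro h
    exact ⟨h 0, fun i => h i.succ⟩
  · rintro ⟨h0, h1⟩ i
    exact Fin.cases h0 (fun j => h1 j) i

theorem Ln.slice_chart (L : Ln X Λ u D κ p e c Γ₀ s) (χ : Chart (k + 2) X) {c' : Vd (k + 1)} {ρ : ℝ} (hs : Str Λ u χ c' ρ)
    {q₀ : Vd (k + 2)} (hq₀ : q₀ ∈ ball (0 : Vd (k + 2)) 2) {z₀ : ℂ} (hz₀ : ‖z₀‖ < s) (hq : ms c' ρ q₀ = p + z₀ • e) :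
    ∃ (χ' : Pool.Agent.H14.PP.Chart (Yl X Λ u p e s)) (r : ℝ), Pool.Agent.H62.EL.Mon Γ₀ (wl Λ u p e s) χ' z₀ r 1 0 ∧
      (∀ y ∈ ball (0 : ℂ × ℂ) 2, ‖z₀ + r * y.1‖ < s ∧ slc p e c' ρ z₀ r y ∈ ball (0 : Vd (k + 2)) 2 ∧ χ'.σ y = χ.σ (slc p e c' ρ z₀ r y)) ∧
      ∀ x ∈ Yl X Λ u p e s, x ∈ χ.U → wl Λ u p e s x = z₀ → ms c' ρ (χ.q x) = p + z₀ • e → x ∈ χ'.U ∧ χ'.q x = (0, χ.q x 0) := by
  obtain ⟨i, hi⟩ : ∃ i, e i ≠ 0 := Function.ne_iff.1 L.e_ne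
  have he : 0 < ‖e‖ := norm_pos_iff.2 L.e_ne
  have hρ := hs.pos
  have hρ0 : (ρ : ℂ) ≠ 0 := by exact_mod_cast hρ.ne'
  have hspos := L.pos
  have htq : 0 < 2 - ‖tl q₀‖ := by
    have := ((Br_ball_iff' q₀).1 hq₀).2
    linarith
  obtain ⟨r, hr0, hr1, hr2⟩ : ∃ r : ℝ, 0 < r ∧ 2 * r ≤ s - ‖z₀‖ ∧ 2 * r * ‖e‖ ≤ (2 - ‖tl q₀‖) * ρ := by
    refine ⟨min ((s - ‖z₀‖) / 2) ((2 - ‖tl q₀‖) * ρ / (2 * ‖e‖)), ?_, ?_, ?_⟩
    · refine lt_min (by linarith) (by positivity)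
    · have := min_le_left ((s - ‖z₀‖) / 2) ((2 - ‖tl q₀‖) * ρ / (2 * ‖e‖))
      linarith
    · have h1 := min_le_right ((s - ‖z₀‖) / 2) ((2 - ‖tl q₀‖) * ρ / (2 * ‖e‖))
      rw [le_div_iff₀ (by positivity)] at h1
      linarith
  have hr0' : (r : ℂ) ≠ 0 := by exact_mod_cast hr0.ne'
  -- the points of the line
  have hz : ∀ y : ℂ × ℂ, ‖y.1‖ < 2 → ‖z₀ + r * y.1‖ < s := by
    intro y hy
    have h1 : ‖(r : ℂ) * y.1‖ < r * 2 := by
      rw [norm_mul, Complex.norm_real, Real.norm_eq_abs, abs_of_pos hr0]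
      exact mul_lt_mul_of_pos_left hy hr0
    have h2 := norm_add_le z₀ ((r : ℂ) * y.1)
    linarith
  have htl0 : (ρ : ℂ) • tl q₀ = p + z₀ • e - c' := by
    rw [← hq]
    unfold ms
    abel
  have htl : ∀ y : ℂ × ℂ, tl (slc p e c' ρ z₀ r y) - tl q₀ = (ρ : ℂ)⁻¹ • ((r * y.1) • e) := by
    intro y
    have h1 : tl q₀ = (ρ : ℂ)⁻¹ • (p + z₀ • e - c') := by
      rw [← htl0, smul_smul, inv_mul_cancel₀ hρ0, one_smul]
    rw [Br_slc_tl, h1, ← smul_sub]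
    congr 1
    rw [add_smul]
    abel
  have htln : ∀ y : ℂ × ℂ, ‖y.1‖ < 2 → ‖tl (slc p e c' ρ z₀ r y) - tl q₀‖ < ρ⁻¹ * (2 * r * ‖e‖) := by
    intro y hy
    rw [htl y, norm_smul, norm_smul, norm_mul, norm_inv, Complex.norm_real, Complex.norm_real, Real.norm_eq_abs, Real.norm_eq_abs,
      abs_of_pos hρ, abs_of_pos hr0]
    refine mul_lt_mul_of_pos_left ?_ (inv_pos.2 hρ)
    refine mul_lt_mul_of_pos_right ?_ he
    have := mul_lt_mul_of_pos_left hy hr0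
    linarith
  have hsl : ∀ y ∈ ball (0 : ℂ × ℂ) 2, slc p e c' ρ z₀ r y ∈ ball (0 : Vd (k + 2)) 2 := by
    intro y hy
    rw [Br_ball_iff] at hy
    rw [Br_ball_iff']
    refine ⟨hy.2, ?_⟩
    have h1 := htln y hy.1
    have h2 : ρ⁻¹ * (2 * r * ‖e‖) ≤ 2 - ‖tl q₀‖ := by
      rw [inv_mul_le_iff₀ hρ]
      linarith
    have h3 : tl (slc p e c' ρ z₀ r y) = (tl (slc p e c' ρ z₀ r y) - tl q₀) + tl q₀ := by abel
    rw [h3]
    have := norm_add_le (tl (slc p e c' ρ z₀ r y) - tl q₀) (tl q₀)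
    linarith
  have hmem : ∀ y ∈ ball (0 : ℂ × ℂ) 2, χ.σ (slc p e c' ρ z₀ r y) ∈ Yl X Λ u p e s ∧
      u (χ.σ (slc p e c' ρ z₀ r y)) - (p + (z₀ + r * y.1) • e) ∈ Λ := by
    intro y hy
    have h1 := hs.lift _ (hsl y hy)
    rw [Br_slc_ms p e c' hρ] at h1
    exact ⟨⟨(χ.σ_mem _ (hsl y hy)).1, z₀ + r * y.1, (hz y ((Br_ball_iff y).1 hy).1).le, h1⟩, h1⟩
  -- the first coordinate
  set g : EN N → ℂ := fun x => ((ms c' ρ (χ.q x) - p) i / e i - z₀) / r with hg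
  have hgan : ∀ x ∈ χ.U, AnalyticAt ℂ g x := by
    intro x hx
    have h1 : AnalyticAt ℂ (fun x => ms c' ρ (χ.q x) - p) x := by
      have h2 : AnalyticAt ℂ (fun x => ms c' ρ (χ.q x)) x := by
        have h3 : AnalyticAt ℂ (ms (k := k) c' ρ) (χ.q x) := by
          exact analyticAt_const.add (((ρ : ℂ) • tlL (k := k)).analyticAt _)
        exact h3.fun_comp (χ.q_an x hx)
      exact h2.sub analyticAt_const
    have h4 : AnalyticAt ℂ (fun x => (ms c' ρ (χ.q x) - p) i) x :=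
      ((ContinuousLinearMap.proj (R := ℂ) (φ := fun _ : Fin (k + 1) => ℂ) i).analyticAt _).fun_comp h1
    exact ((h4.div analyticAt_const hi).sub analyticAt_const).div analyticAt_const hr0'
  have hgval : ∀ x : EN N, ∀ w : ℂ, ms c' ρ (χ.q x) = p + (z₀ + r * w) • e → g x = w := by
    intro x w h
    show ((ms c' ρ (χ.q x) - p) i / e i - z₀) / r = w
    rw [h, add_sub_cancel_left, Pi.smul_apply, smul_eq_mul, mul_div_cancel_right₀ _ hi, add_sub_cancel_left, mul_div_cancel_left₀ _ hr0']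
  -- the coordinates are on the line
  have hline : ∀ x ∈ Yl X Λ u p e s, x ∈ χ.U → ‖tl (χ.q x) - tl q₀‖ < ρ⁻¹ * (s * ‖e‖) →
      ms c' ρ (χ.q x) = p + wl Λ u p e s x • e := by
    intro x hx hU hn
    have h1 := Ln.wl_spec hx
    obtain ⟨hb, a, ha, hxa⟩ := χ.surj x hx.1 hU
    have h2 := hs.lift _ hb
    have h3 : u x - u (χ.σ (χ.q x)) ∈ Λ := by
      have h4 := L.tor.smul _ (χ.σ_mem _ hb).1 a ha
      rwa [← hxa] at h4
    have h5 : ms c' ρ (χ.q x) - (p + wl Λ u p e s x • e) ∈ Λ := by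
      have h6 : ms c' ρ (χ.q x) - (p + wl Λ u p e s x • e) =
          (u x - (p + wl Λ u p e s x • e)) - (u x - u (χ.σ (χ.q x))) - (u (χ.σ (χ.q x)) - ms c' ρ (χ.q x)) := by abel
      rw [h6]
      exact Λ.sub_mem (Λ.sub_mem h1.2 h3) h2
    refine sub_eq_zero.1 (L.small _ h5 ?_)
    have h7 : ms c' ρ (χ.q x) - (p + wl Λ u p e s x • e) = (ρ : ℂ) • (tl (χ.q x) - tl q₀) + (z₀ - wl Λ u p e s x) • e := by
      unfold ms
      rw [smul_sub, htl0, sub_smul]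
      abel
    rw [h7]
    refine (norm_add_le _ _).trans ?_
    rw [norm_smul, norm_smul, Complex.norm_real, Real.norm_eq_abs, abs_of_pos hρ]
    have h8 : ‖z₀ - wl Λ u p e s x‖ ≤ s + s := (norm_sub_le _ _).trans (add_le_add hz₀.le h1.1)
    have h9 := mul_le_mul_of_nonneg_right h8 (norm_nonneg e)
    have h10 : ρ * ‖tl (χ.q x) - tl q₀‖ ≤ s * ‖e‖ := by
      have h11 := mul_le_mul_of_nonneg_left hn.le hρ.le
      rwa [← mul_assoc, mul_inv_cancel₀ hρ.ne', one_mul] at h11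
    linarith [mul_nonneg hspos.le (norm_nonneg e)]
  have hqc : ∀ x ∈ χ.U, ContinuousAt (fun x => ‖tl (χ.q x) - tl q₀‖) x := by
    intro x hx
    have h1 : ContinuousAt (fun x => tl (χ.q x)) x :=
      (tlL (k := k)).continuous.continuousAt.comp (χ.q_an x hx).continuousAt
    exact (h1.sub continuousAt_const).norm
  let χ' : Pool.Agent.H14.PP.Chart (Yl X Λ u p e s) :=
    { σ := fun y => χ.σ (slc p e c' ρ z₀ r y)
      U := {x | x ∈ χ.U ∧ ‖tl (χ.q x) - tl q₀‖ < ρ⁻¹ * (s * ‖e‖) ∧ ‖g x‖ < 2}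
      q := fun x => (g x, χ.q x 0)
      isOpen_U := by
        rw [isOpen_iff_mem_nhds]
        rintro x ⟨h1, h2, h3⟩
        filter_upwards [χ.isOpen_U.mem_nhds h1, (hqc x h1).eventually_lt continuousAt_const h2,
          (hgan x h1).continuousAt.norm.eventually_lt continuousAt_const h3] with x' h4 h5 h6
        exact ⟨h4, h5, h6⟩
      smul_U := by
        rintro x ⟨h1, h2, h3⟩ a ha
        have h4 := χ.q_smul x h1 a ha
        refine ⟨χ.smul_U x h1 a ha, ?_, ?_⟩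
        · rw [h4]
          exact h2
        · have h5 : g (a • x) = g x := by
            show ((ms c' ρ (χ.q (a • x)) - p) i / e i - z₀) / r = ((ms c' ρ (χ.q x) - p) i / e i - z₀) / r
            rw [h4]
          rw [h5]
          exact h3
      σ_an := fun y hy => (χ.σ_an _ (hsl y hy)).fun_comp (Br_slc_an p e c' ρ z₀ r y)
      q_an := fun x hx => (hgan x hx.1).prod
        (((ContinuousLinearMap.proj (R := ℂ) (φ := fun _ : Fin (k + 2) => ℂ) 0).analyticAt _).fun_comp (χ.q_an x hx.1))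
      q_smul := by
        rintro x ⟨h1, h2, h3⟩ a ha
        have h4 := χ.q_smul x h1 a ha
        show (((ms c' ρ (χ.q (a • x)) - p) i / e i - z₀) / r, χ.q (a • x) 0) = (((ms c' ρ (χ.q x) - p) i / e i - z₀) / r, χ.q x 0)
        rw [h4]
      σ_mem := by
        intro y hy
        have h1 := χ.σ_mem _ (hsl y hy)
        have hy' := (Br_ball_iff y).1 hy
        have h2 : g (χ.σ (slc p e c' ρ z₀ r y)) = y.1 := by
          refine hgval _ _ ?_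
          rw [h1.2.2]
          exact Br_slc_ms p e c' hρ z₀ r y
        refine ⟨(hmem y hy).1, ⟨h1.2.1, ?_, ?_⟩, ?_⟩
        · rw [h1.2.2]
          refine (htln y hy'.1).trans_le ?_
          refine mul_le_mul_of_nonneg_left ?_ (inv_pos.2 hρ).le
          refine mul_le_mul_of_nonneg_right ?_ (norm_nonneg e)
          linarith [norm_nonneg z₀]
        · rw [h2]
          exact hy'.1
        · show (g (χ.σ (slc p e c' ρ z₀ r y)), χ.q (χ.σ (slc p e c' ρ z₀ r y)) 0) = y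
          rw [h2, h1.2.2]
          rfl
      surj := by
        rintro x hx ⟨hU, h2, h3⟩
        obtain ⟨hb, a, ha, hxa⟩ := χ.surj x hx.1 hU
        have hb' := (Br_ball_iff' _).1 hb
        have h4 := hline x hx hU h2
        have h5 : ms c' ρ (χ.q x) = p + (z₀ + r * g x) • e := by
          have h6 : z₀ + r * g x = wl Λ u p e s x := by
            show z₀ + r * (((ms c' ρ (χ.q x) - p) i / e i - z₀) / r) = wl Λ u p e s x
            rw [mul_div_cancel₀ _ hr0', h4, add_sub_cancel_left, Pi.smul_apply, smul_eq_mul, mul_div_cancel_right₀ _ hi]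
            ring
          rw [h6]
          exact h4
        refine ⟨(Br_ball_iff _).2 ⟨h3, hb'.1⟩, a, ha, ?_⟩
        show x = a • χ.σ (slc p e c' ρ z₀ r (g x, χ.q x 0))
        rw [Br_slc_eq p e c' hρ z₀ r (y := (g x, χ.q x 0)) rfl h5]
        exact hxa }
  refine ⟨χ', r, ⟨hr0, by norm_num, ?_⟩, ?_, ?_⟩
  · intro y hy
    have h1 : wl Λ u p e s (χ.σ (slc p e c' ρ z₀ r y)) = z₀ + r * y.1 :=
      L.wl_eq (hz y ((Br_ball_iff y).1 hy).1).le (hmem y hy).2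
    show wl Λ u p e s (χ.σ (slc p e c' ρ z₀ r y)) - Pool.Agent.H62.EL.mo z₀ r 1 0 y ∈ Γ₀
    rw [h1]
    unfold Pool.Agent.H62.EL.mo
    rw [pow_one, pow_zero, mul_one, sub_self]
    exact Γ₀.zero_mem
  · intro y hy
    exact ⟨hz y ((Br_ball_iff y).1 hy).1, hsl y hy, rfl⟩
  · intro x hx hU hw hms
    have h1 : tl (χ.q x) - tl q₀ = 0 := by
      have h2 : (ρ : ℂ) • (tl (χ.q x) - tl q₀) = 0 := by
        rw [smul_sub, htl0]
        have h3 : (ρ : ℂ) • tl (χ.q x) = p + z₀ • e - c' := by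
          rw [← hms]
          unfold ms
          abel
        rw [h3, sub_self]
      exact (smul_eq_zero.1 h2).resolve_left hρ0
    have h2 : g x = 0 := by
      refine hgval x 0 ?_
      rw [mul_zero, add_zero]
      exact hms
    refine ⟨⟨hU, ?_, ?_⟩, ?_⟩
    · rw [h1, norm_zero]
      positivity
    · rw [h2, norm_zero]
      norm_num
    · show (g x, χ.q x 0) = (0, χ.q x 0)
      rw [h2]

/-- the first column is zero except in the row `1` -/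
private theorem Br_det {a b : ℂ} {v : Vd (k + 1)} {w : Fin k → Vd (k + 1)} :
    (Matrix.of fun i j => (Fin.cons (Fin.cons (α := fun _ => ℂ) 0 ((a * b) • v)) (Fin.cons (Pi.single 0 1)
      fun l => Fin.cons (α := fun _ => ℂ) 0 (b • w l)) : Fin (k + 2) → Vd (k + 2)) i j).det =
      -(a * b ^ (k + 1)) * (Matrix.of fun i j => (Fin.cons v w : Fin (k + 1) → Vd (k + 1)) i j).det := by
  rw [Matrix.det_succ_column_zero]
  rw [Fin.sum_univ_succ, Fin.sum_univ_succ]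
  have h0 : ∀ x : Fin k, (Matrix.of fun i j => (Fin.cons (Fin.cons (α := fun _ => ℂ) 0 ((a * b) • v)) (Fin.cons (Pi.single 0 1)
      fun l => Fin.cons (α := fun _ => ℂ) 0 (b • w l)) : Fin (k + 2) → Vd (k + 2)) i j) x.succ.succ 0 = 0 := fun x => rfl
  have h1 : (Matrix.of fun i j => (Fin.cons (Fin.cons (α := fun _ => ℂ) 0 ((a * b) • v)) (Fin.cons (Pi.single 0 1)
      fun l => Fin.cons (α := fun _ => ℂ) 0 (b • w l)) : Fin (k + 2) → Vd (k + 2)) i j) 0 0 = 0 := rfl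
  have h2 : (Matrix.of fun i j => (Fin.cons (Fin.cons (α := fun _ => ℂ) 0 ((a * b) • v)) (Fin.cons (Pi.single 0 1)
      fun l => Fin.cons (α := fun _ => ℂ) 0 (b • w l)) : Fin (k + 2) → Vd (k + 2)) i j) (Fin.succ 0) 0 = 1 := by
    show (Pi.single 0 1 : Vd (k + 2)) 0 = 1
    exact Pi.single_eq_same _ _
  rw [h1, h2, Finset.sum_eq_zero (fun x _ => by rw [h0 x]; ring)]
  have h3 : (Matrix.of fun i j => (Fin.cons (Fin.cons (α := fun _ => ℂ) 0 ((a * b) • v)) (Fin.cons (Pi.single 0 1)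
      fun l => Fin.cons (α := fun _ => ℂ) 0 (b • w l)) : Fin (k + 2) → Vd (k + 2)) i j).submatrix (Fin.succ 0).succAbove Fin.succ =
      Matrix.of fun i j => (Fin.cons (a * b) fun _ => b : Fin (k + 1) → ℂ) i * (Matrix.of fun i j => (Fin.cons v w : Fin (k + 1) → Vd (k + 1)) i j) i j := by
    funext i j
    refine Fin.cases ?_ (fun l => ?_) i
    · rfl
    · rfl
  rw [h3, Matrix.det_mul_column, Fin.prod_univ_succ]
  simp only [Fin.cons_zero, Fin.cons_succ, Finset.prod_const, Finset.card_univ, Fintype.card_fin]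
  simp only [Fin.val_zero, Fin.succ_zero_eq_one, Fin.val_one]
  ring

theorem Ln.slice_tc (L : Ln X Λ u D κ p e c Γ₀ s) (α : VForm X Λ u) (χ : Chart (k + 2) X) {c' : Vd (k + 1)} {ρ : ℝ} (hs : Str Λ u χ c' ρ)
    {z₀ : ℂ} {r : ℝ} (hr : 0 < r) {χ' : Pool.Agent.H14.PP.Chart (Yl X Λ u p e s)}
    (hσ : ∀ y ∈ ball (0 : ℂ × ℂ) 2, ‖z₀ + r * y.1‖ < s ∧ slc p e c' ρ z₀ r y ∈ ball (0 : Vd (k + 2)) 2 ∧ χ'.σ y = χ.σ (slc p e c' ρ z₀ r y))
    (υ : ℂ × ℂ → ℂ) {y : ℂ × ℂ} (hy : y ∈ ball (0 : ℂ × ℂ) 2) :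
    Pool.Agent.H62.EL.tc (L.form α) χ' υ y =
      -((r : ℂ) / (ρ : ℂ) ^ (k + 1)) * dt κ e c (z₀ + r * y.1) * tc α χ (ms c' ρ) (slc p e c' ρ z₀ r y) := by
  obtain ⟨hz, hq, hσy⟩ := hσ y hy
  have hρ := hs.pos
  have hρ0 : (ρ : ℂ) ≠ 0 := by exact_mod_cast hρ.ne'
  have hmY := (χ'.σ_mem y hy).1
  have hmχ := χ.σ_mem _ hq
  have hlift := hs.lift _ hq
  rw [Br_slc_ms p e c' hρ] at hlift
  have hwl : wl Λ u p e s (χ'.σ y) = z₀ + r * y.1 := by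
    rw [hσy]
    exact L.wl_eq hz.le hlift
  have hder : fderiv ℂ χ'.σ y = (fderiv ℂ χ.σ (slc p e c' ρ z₀ r y)).comp (Br_slL e ρ r) := by
    have h1 : HasFDerivAt (fun y => χ.σ (slc p e c' ρ z₀ r y)) ((fderiv ℂ χ.σ (slc p e c' ρ z₀ r y)).comp (Br_slL e ρ r)) y :=
      (χ.σ_an _ hq).differentiableAt.hasFDerivAt.comp y (Br_slc_deriv p e c' ρ z₀ r y)
    refine (h1.congr_of_eventuallyEq ?_).fderiv
    filter_upwards [isOpen_ball.mem_nhds hy] with y' hy'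
    exact (hσ y' hy').2.2
  have hpart : Pool.Agent.H14.PP.IsOpenPart (Yl X Λ u p e s) (Yl X Λ u p e s) :=
    ⟨subset_rfl, (L.isCone).smul_mem, fun x hx => Eventually.of_forall fun _ h => h⟩
  have htan : ∀ w : ℂ × ℂ, Tan (Yl X Λ u p e s) (χ'.σ y) (fderiv ℂ χ'.σ y w) := fun w => χ'.tan hpart hy hmY w
  -- the frame
  have hframe : ∀ j, DV X Λ u (χ'.σ y) (fderiv ℂ χ.σ (slc p e c' ρ z₀ r y) (Fin.cons (α := fun _ => ℂ) 0 ((ρ : ℂ)⁻¹ • fr κ c (z₀ + r * y.1) j)))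
      (fr κ c (wl Λ u p e s (χ'.σ y)) j) := by
    intro j
    rw [hwl, hσy]
    refine (dv_iff L.cone L.tor L.lat χ hmχ.1 hmχ.2.1 (υ := ms c' ρ) ?_ ?_).2 ⟨tan_sigma χ hq _, ?_⟩
    · exact analyticAt_const.add (((ρ : ℂ) • tlL (k := k)).analyticAt _)
    · rw [hmχ.2.2]
      filter_upwards [isOpen_ball.mem_nhds hq] with q' hq'
      exact hs.lift q' hq'
    · rw [χ.fderiv_sigma hq]
      have h1 : HasFDerivAt (ms (k := k) c' ρ) ((ρ : ℂ) • tlL (k := k)) (χ.q (χ.σ (slc p e c' ρ z₀ r y))) :=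
        (((ρ : ℂ) • tlL (k := k)).hasFDerivAt).const_add c'
      rw [h1.fderiv]
      show (ρ : ℂ) • ((ρ : ℂ)⁻¹ • fr κ c (z₀ + r * y.1) j) = fr κ c (z₀ + r * y.1) j
      rw [smul_smul, mul_inv_cancel₀ hρ0, one_smul]
  unfold Pool.Agent.H62.EL.tc
  rw [L.form_eq α (υ y) hmY (htan _) (htan _) hframe, hwl]
  have hT : ∀ i : Fin (k + 2), Tan X (χ'.σ y) ((Fin.cons (fderiv ℂ χ'.σ y (1, 0)) (Fin.cons (fderiv ℂ χ'.σ y (0, 1))
      fun j => fderiv ℂ χ.σ (slc p e c' ρ z₀ r y) (Fin.cons (α := fun _ => ℂ) 0 ((ρ : ℂ)⁻¹ • fr κ c (z₀ + r * y.1) j))) : Fin (k + 2) → EN N) i) := by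
    intro i
    rw [hσy]
    refine Fin.cases ?_ (fun i' => Fin.cases ?_ (fun j => ?_) i') i
    · show Tan X _ (fderiv ℂ χ'.σ y (1, 0))
      rw [hder]
      exact tan_sigma χ hq _
    · show Tan X _ (fderiv ℂ χ'.σ y (0, 1))
      rw [hder]
      exact tan_sigma χ hq _
    · exact tan_sigma χ hq _
  have hms : ms c' ρ (χ.q (χ'.σ y)) = p + (z₀ + r * y.1) • e := by
    rw [hσy, hmχ.2.2]
    exact Br_slc_ms p e c' hρ z₀ r y
  have hxU : χ'.σ y ∈ χ.U := by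
    rw [hσy]
    exact hmχ.2.1
  have hlift' : u (χ'.σ y) - (p + (z₀ + r * y.1) • e) ∈ Λ := by
    rw [hσy]
    exact hlift
  rw [toFun_eq L.cone L.tor α χ hmY.1 hxU hlift' hms _ hT]
  have hqσ : χ.q (χ'.σ y) = slc p e c' ρ z₀ r y := by
    rw [hσy]
    exact hmχ.2.2
  have hM : (Matrix.of fun i j => fderiv ℂ χ.q (χ'.σ y) ((Fin.cons (fderiv ℂ χ'.σ y (1, 0)) (Fin.cons (fderiv ℂ χ'.σ y (0, 1))
      fun j => fderiv ℂ χ.σ (slc p e c' ρ z₀ r y) (Fin.cons (α := fun _ => ℂ) 0 ((ρ : ℂ)⁻¹ • fr κ c (z₀ + r * y.1) j))) : Fin (k + 2) → EN N) i) j) =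
      Matrix.of fun i j => (Fin.cons (Fin.cons (α := fun _ => ℂ) 0 (((r : ℂ) * (ρ : ℂ)⁻¹) • e)) (Fin.cons (Pi.single 0 1)
      fun l => Fin.cons (α := fun _ => ℂ) 0 ((ρ : ℂ)⁻¹ • fr κ c (z₀ + r * y.1) l)) : Fin (k + 2) → Vd (k + 2)) i j := by
    have h1 : ∀ w : Vd (k + 2), fderiv ℂ χ.q (χ'.σ y) (fderiv ℂ χ.σ (slc p e c' ρ z₀ r y) w) = w := by
      intro w
      rw [hσy]
      exact χ.fderiv_sigma hq w
    funext i
    refine Fin.cases ?_ (fun i' => Fin.cases ?_ (fun j => ?_) i') i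
    · show fderiv ℂ χ.q (χ'.σ y) (fderiv ℂ χ'.σ y (1, 0)) = Fin.cons (α := fun _ => ℂ) 0 (((r : ℂ) * (ρ : ℂ)⁻¹) • e)
      rw [hder, ContinuousLinearMap.comp_apply, h1, Br_slL_apply]
      congr 1
      rw [smul_smul]
      congr 1
      ring
    · show fderiv ℂ χ.q (χ'.σ y) (fderiv ℂ χ'.σ y (0, 1)) = Pi.single 0 1
      rw [hder, ContinuousLinearMap.comp_apply, h1, Br_slL_apply]
      funext m
      refine Fin.cases ?_ (fun m' => ?_) m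
      · show (1 : ℂ) = (Pi.single 0 1 : Vd (k + 2)) 0
        rw [Pi.single_eq_same]
      · show (ρ : ℂ)⁻¹ * ((r * 0) * e m') = (Pi.single 0 1 : Vd (k + 2)) m'.succ
        rw [Pi.single_eq_of_ne (Fin.succ_ne_zero m')]
        ring
    · show fderiv ℂ χ.q (χ'.σ y) (fderiv ℂ χ.σ (slc p e c' ρ z₀ r y) (Fin.cons (α := fun _ => ℂ) 0 ((ρ : ℂ)⁻¹ • fr κ c (z₀ + r * y.1) j))) =
        Fin.cons (α := fun _ => ℂ) 0 ((ρ : ℂ)⁻¹ • fr κ c (z₀ + r * y.1) j)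
      exact h1 _
  rw [hM, Br_det, hqσ]
  unfold dt
  rw [inv_pow]
  ring

private theorem Br_dt_an (L : Ln X Λ u D κ p e c Γ₀ s) {z : ℂ} (hz : ‖z‖ ≤ s) : AnalyticAt ℂ (dt κ e c) z := by
  have hz' : z ∈ closedBall (0 : ℂ) s := by
    rw [mem_closedBall_zero_iff]
    exact hz
  have hc := L.c_an z hz'
  have hκ := L.κ_an z hz'
  have hf : ∀ j : Fin k, AnalyticAt ℂ (fun z => fr κ c z j) z := by
    intro j
    have h1 : AnalyticAt ℂ (fun z => fderiv ℂ κ (c z)) z := hκ.fderiv.fun_comp hc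
    exact ((ContinuousLinearMap.apply ℂ (Vd (k + 1)) (Pi.single j.succ 1 : Vd (k + 1))).analyticAt _).fun_comp h1
  have hrow : ∀ i j : Fin (k + 1), AnalyticAt ℂ (fun z => (Fin.cons e (fr κ c z) : Fin (k + 1) → Vd (k + 1)) i j) z := by
    intro i j
    refine Fin.cases ?_ (fun l => ?_) i
    · exact analyticAt_const
    · exact ((ContinuousLinearMap.proj (R := ℂ) (φ := fun _ : Fin (k + 1) => ℂ) j).analyticAt _).fun_comp (hf l)
  have h2 : dt κ e c = fun z => ∑ σ : Equiv.Perm (Fin (k + 1)), (Equiv.Perm.sign σ : ℂ) *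
      ∏ i, (Fin.cons e (fr κ c z) : Fin (k + 1) → Vd (k + 1)) (σ i) i := by
    funext z
    unfold dt
    rw [Matrix.det_apply']
    rfl
  rw [h2]
  refine Finset.analyticAt_fun_sum _ fun σ _ => analyticAt_const.mul ?_
  exact Finset.analyticAt_fun_prod _ fun i _ => hrow _ _

theorem Ln.irel_bridge (L : Ln X Λ u D κ p e c Γ₀ s) {α : VForm X Λ u} {ε : ℝ} {z : ℂ} (hz : ‖z‖ < s) {m m' : MN N} {v : ℂ}
    (h : IRel α ε (p + z • e) m m' v) : Pool.Agent.H62.EL.IRel (L.form α) ε z m m' (-dt κ e c z * v) := by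
  obtain ⟨χ, c', ρ, A, q, q', hs, hA, hq, hq', hms, hms', hm, hm', hpath, hv⟩ := h
  have hρ := hs.pos
  have hρ0 : (ρ : ℂ) ≠ 0 := by exact_mod_cast hρ.ne'
  obtain ⟨χ', r, hmon, hσ, -⟩ := L.slice_chart χ hs hq hz hms
  have hr := hmon.pos
  have hr0 : (r : ℂ) ≠ 0 := by exact_mod_cast hr.ne'
  have hsl : ∀ (q : Vd (k + 2)), ms c' ρ q = p + z • e → slc p e c' ρ z r (0, q 0) = q := by
    intro q h
    refine Br_slc_eq p e c' hρ z r (y := (0, q 0)) rfl ?_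
    rw [mul_zero, add_zero]
    exact h
  have hy : ∀ (q : Vd (k + 2)), q ∈ ball (0 : Vd (k + 2)) 2 → ((0 : ℂ), q 0) ∈ ball (0 : ℂ × ℂ) 2 := by
    intro q hq
    rw [Br_ball_iff]
    refine ⟨?_, ((Br_ball_iff' q).1 hq).1⟩
    show ‖(0 : ℂ)‖ < 2
    rw [norm_zero]
    norm_num
  have hb : ∀ y ∈ ball (0 : ℂ × ℂ) 2, AnalyticAt ℂ (fun y : ℂ × ℂ => dt κ e c (z + r * y.1)) y := by
    intro y hy
    have h1 : AnalyticAt ℂ (fun y : ℂ × ℂ => z + (r : ℂ) * y.1) y :=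
      analyticAt_const.add (analyticAt_const.mul ((ContinuousLinearMap.fst ℂ ℂ ℂ).analyticAt y))
    exact AnalyticAt.fun_comp (g := dt κ e c) (f := fun y : ℂ × ℂ => z + (r : ℂ) * y.1) (Br_dt_an L (hσ y hy).1.le) h1
  have hAs : ∀ y ∈ ball (0 : ℂ × ℂ) 2, AnalyticAt ℂ (fun y => A (slc p e c' ρ z r y)) y :=
    fun y hy => (hA.an _ (hσ y hy).2.1).fun_comp (Br_slc_an p e c' ρ z r y)
  refine ⟨χ', z, r, fun y => -((r : ℂ) / (ρ : ℂ) ^ (k + 1)) * dt κ e c (z + r * y.1) * A (slc p e c' ρ z r y), (0, q 0), (0, q' 0), hmon,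
    ⟨?_, ?_, ?_⟩, hy q hq, hy q' hq', ?_, ?_, ?_, ?_, ?_, ?_⟩
  · intro y hy
    exact (analyticAt_const.mul (hb y hy)).mul (hAs y hy)
  · intro y hy
    rw [L.slice_tc α χ hs hr hσ _ hy]
    have h1 : HasFDerivAt (fun y => A (slc p e c' ρ z r y)) ((fderiv ℂ A (slc p e c' ρ z r y)).comp (Br_slL e ρ r)) y :=
      (hA.an _ (hσ y hy).2.1).differentiableAt.hasFDerivAt.comp y (Br_slc_deriv p e c' ρ z r y)
    have h2 : HasDerivAt (fun t : ℂ => A (slc p e c' ρ z r (y + t • ((0 : ℂ), (1 : ℂ))))) (tc α χ (ms c' ρ) (slc p e c' ρ z r y)) 0 := by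
      have h3 : HasDerivAt (fun t : ℂ => y + t • ((0 : ℂ), (1 : ℂ))) ((0 : ℂ), (1 : ℂ)) 0 := by
        have h4 := ((hasDerivAt_id (0 : ℂ)).smul_const ((0 : ℂ), (1 : ℂ))).const_add y
        rwa [one_smul] at h4
      have h5 : HasFDerivAt (fun y => A (slc p e c' ρ z r y)) ((fderiv ℂ A (slc p e c' ρ z r y)).comp (Br_slL e ρ r))
          (y + (0 : ℂ) • ((0 : ℂ), (1 : ℂ))) := by
        rw [zero_smul, add_zero]
        exact h1
      have h6 := h5.comp_hasDerivAt (0 : ℂ) h3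
      have h7 : ((fderiv ℂ A (slc p e c' ρ z r y)).comp (Br_slL e ρ r)) ((0 : ℂ), (1 : ℂ)) = tc α χ (ms c' ρ) (slc p e c' ρ z r y) := by
        rw [ContinuousLinearMap.comp_apply, Br_slL_apply, ← hA.der _ (hσ y hy).2.1]
        congr 1
        funext m
        refine Fin.cases ?_ (fun m' => ?_) m
        · show (1 : ℂ) = (Pi.single 0 1 : Vd (k + 2)) 0
          rw [Pi.single_eq_same]
        · show (ρ : ℂ)⁻¹ * ((r * 0) * e m') = (Pi.single 0 1 : Vd (k + 2)) m'.succ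
          rw [Pi.single_eq_of_ne (Fin.succ_ne_zero m')]
          ring
      rw [h7] at h6
      exact h6
    have h8 : HasDerivAt (fun t : ℂ => (fun y : ℂ × ℂ => -((r : ℂ) / (ρ : ℂ) ^ (k + 1)) * dt κ e c (z + r * y.1) * A (slc p e c' ρ z r y))
        (y + t • ((0 : ℂ), (1 : ℂ)))) (-((r : ℂ) / (ρ : ℂ) ^ (k + 1)) * dt κ e c (z + r * y.1) * tc α χ (ms c' ρ) (slc p e c' ρ z r y)) 0 := by
      have h9 := h2.const_mul (-((r : ℂ) / (ρ : ℂ) ^ (k + 1)) * dt κ e c (z + r * y.1))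
      refine h9.congr_of_eventuallyEq (Eventually.of_forall fun t => ?_)
      show -((r : ℂ) / (ρ : ℂ) ^ (k + 1)) * dt κ e c (z + r * (y.1 + t * 0)) * A (slc p e c' ρ z r (y + t • ((0 : ℂ), (1 : ℂ)))) =
        -((r : ℂ) / (ρ : ℂ) ^ (k + 1)) * dt κ e c (z + r * y.1) * A (slc p e c' ρ z r (y + t • ((0 : ℂ), (1 : ℂ))))
      rw [mul_zero, add_zero]
    have h10 : HasDerivAt (fun t : ℂ => (fun y : ℂ × ℂ => -((r : ℂ) / (ρ : ℂ) ^ (k + 1)) * dt κ e c (z + r * y.1) * A (slc p e c' ρ z r y))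
        (y + t • ((0 : ℂ), (1 : ℂ)))) (fderiv ℂ (fun y : ℂ × ℂ => -((r : ℂ) / (ρ : ℂ) ^ (k + 1)) * dt κ e c (z + r * y.1) *
          A (slc p e c' ρ z r y)) y ((0 : ℂ), (1 : ℂ))) 0 := by
      have h3 : HasDerivAt (fun t : ℂ => y + t • ((0 : ℂ), (1 : ℂ))) ((0 : ℂ), (1 : ℂ)) 0 := by
        have h4 := ((hasDerivAt_id (0 : ℂ)).smul_const ((0 : ℂ), (1 : ℂ))).const_add y
        rwa [one_smul] at h4
      have h11 := ((analyticAt_const.mul (hb y hy)).mul (hAs y hy) : AnalyticAt ℂ (fun y : ℂ × ℂ =>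
        -((r : ℂ) / (ρ : ℂ) ^ (k + 1)) * dt κ e c (z + r * y.1) * A (slc p e c' ρ z r y)) y).differentiableAt.hasFDerivAt
      have h5 : HasFDerivAt (fun y : ℂ × ℂ => -((r : ℂ) / (ρ : ℂ) ^ (k + 1)) * dt κ e c (z + r * y.1) * A (slc p e c' ρ z r y))
          (fderiv ℂ (fun y : ℂ × ℂ => -((r : ℂ) / (ρ : ℂ) ^ (k + 1)) * dt κ e c (z + r * y.1) * A (slc p e c' ρ z r y)) y)
          (y + (0 : ℂ) • ((0 : ℂ), (1 : ℂ))) := by
        rw [zero_smul, add_zero]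
        exact h11
      exact h5.comp_hasDerivAt (0 : ℂ) h3
    exact h10.unique h8
  · intro t ht
    have h1 : ((t : ℂ), (0 : ℂ)) ∈ ball (0 : ℂ × ℂ) 2 := by
      rw [Br_ball_iff]
      refine ⟨ht, ?_⟩
      show ‖(0 : ℂ)‖ < 2
      rw [norm_zero]
      norm_num
    show -((r : ℂ) / (ρ : ℂ) ^ (k + 1)) * dt κ e c (z + r * t) * A (slc p e c' ρ z r (t, 0)) = 0
    rw [hA.zero _ (hσ _ h1).2.1 rfl, mul_zero]
  · show z + r * (0 : ℂ) = z
    rw [mul_zero, add_zero]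
  · show z + r * (0 : ℂ) = z
    rw [mul_zero, add_zero]
  · rw [(hσ _ (hy q hq)).2.2, hsl q hms]
    exact hm
  · rw [(hσ _ (hy q' hq')).2.2, hsl q' hms']
    exact hm'
  · intro θ hθ
    have h1 : ms c' ρ (q + (θ : ℂ) • (q' - q)) = p + z • e := by
      have h2 : ms c' ρ (q + (θ : ℂ) • (q' - q)) = ms c' ρ q + (θ : ℂ) • (ms c' ρ q' - ms c' ρ q) := by
        unfold ms
        rw [tl_add, tl_smul, tl_sub, smul_add, smul_comm (ρ : ℂ) (θ : ℂ), add_sub_add_left_eq_sub, ← smul_sub]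
        abel
      rw [h2, hms, hms', sub_self, smul_zero, add_zero]
    have hb2 : q + (θ : ℂ) • (q' - q) ∈ ball (0 : Vd (k + 2)) 2 := by
      have h3 := (convex_ball (0 : Vd (k + 2)) 2).add_smul_sub_mem hq hq' hθ
      have h4 : (θ : ℂ) • (q' - q) = θ • (q' - q) := by
        funext i
        show (θ : ℂ) * (q' - q) i = θ • (q' - q) i
        rw [Complex.real_smul]
      rw [h4]
      exact h3
    have h5 : ((0 : ℂ), q 0) + (θ : ℂ) • (((0 : ℂ), q' 0) - ((0 : ℂ), q 0)) = ((0 : ℂ), (q + (θ : ℂ) • (q' - q)) 0) := by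
      refine Prod.ext ?_ ?_
      · show (0 : ℂ) + (θ : ℂ) * (0 - 0) = 0
        ring
      · rfl
    rw [h5, (hσ _ (hy _ hb2)).2.2, hsl _ h1]
    exact hpath θ hθ
  · show -dt κ e c z * v = (-((r : ℂ) / (ρ : ℂ) ^ (k + 1)) * dt κ e c (z + r * 0) * A (slc p e c' ρ z r (0, q' 0)) -
      -((r : ℂ) / (ρ : ℂ) ^ (k + 1)) * dt κ e c (z + r * 0) * A (slc p e c' ρ z r (0, q 0))) / r
    rw [hsl q hms, hsl q' hms', mul_zero, add_zero, hv]
    have hρk : (ρ : ℂ) ^ (k + 1) ≠ 0 := pow_ne_zero _ hρ0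
    field_simp
    ring

end Pool.Agent.TG
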