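import Pool.Agent.H62.EL.Kq

/-!
# TG Y Kq: `EL/Kq` for local sections
-/

set_option autoImplicit false

open Topology Filter Metric

namespace Pool.Agent.TGY

open Pool.Agent.H36.BP (EN fs wd IsGermChart)
open Pool.Agent.H14.PP (IsCone Chart Tan CurveAt jac)
open Pool.Agent.H62.EF (Lat MN pr TorusMap Charts DU)
open Pool.Agent.H62.EL

variable {N : ℕ} {X : Set (EN N)} {Λ : AddSubgroup ℂ} {u : EN N → ℂ}
variable {α : TForm X Λ u} {χ χ₀ : Chart X} {b c₀ : ℂ} {ρ ρ₀ η : ℝ} {i j : ℕ} {A A₀ Q : ℂ × ℂ → ℂ}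

private theorem Kq_pair (L : (ℂ × ℂ) →L[ℂ] ℂ) (w : ℂ × ℂ) : L w = w.1 * L (1, 0) + w.2 * L (0, 1) := by
  rw [← smul_eq_mul, ← smul_eq_mul, ← map_smul, ← map_smul, ← map_add]
  congr 1
  ext
  · simp
  · simp

private theorem Kq_mo (c : ℂ) (ρ : ℝ) (p : ℂ × ℂ) : mo c ρ 1 0 p = c + ρ * p.1 := by
  simp [mo]

theorem q_curve_loc (hX : IsCone X) (hu : TorusMap X Λ u) (hΛ : Lat Λ) (hinj : ∀ l ∈ Λ, ‖l‖ < 2 * η → l = 0) (hm : Mon Λ u χ b ρ i j)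
    (hr : ∀ p ∈ ball (0 : ℂ × ℂ) 2, ‖mo b ρ i j p - b‖ < η) (hm₀ : Mon Λ u χ₀ c₀ ρ₀ 1 0) (hA : IsPrim α χ (mo b ρ i j) A)
    (hA₀ : IsPrim α χ₀ (mo c₀ ρ₀ 1 0) A₀) (hsub : ∀ p ∈ ball (0 : ℂ × ℂ) 2, χ₀.σ p ∈ χ.U)
    (hQ : ∀ p ∈ ball (0 : ℂ × ℂ) 2, AnalyticAt ℂ Q p ∧ fderiv ℂ Q p (0, 1) = bc χ A χ₀ (0, 1) p)
    (hQ0 : ∀ s : ℂ, ‖s‖ < 2 → Q (s, 0) = 0) {F : ℂ → EN N} {z : ℂ} (hF : CurveAt X F z) (hFu : ∀ᶠ w in 𝓝 z, u (F w) - w ∈ Λ) (hU : F z ∈ χ₀.U)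
    (hz : c₀ + ρ₀ * (χ₀.q (F z)).1 = z) (hzb : ‖z - b‖ < η) :
    HasDerivAt (fun w => Q (χ₀.q (F w)))
      (bt χ A F z + (A₀ (χ₀.q (F z)) - bc χ A χ₀ (1, 0) ((z - c₀) / ρ₀, 0)) / ρ₀) z := by
  have hcur : CurveAt X F z := hF
  have hFan : AnalyticAt ℂ F z := hF.1
  have hFX : F z ∈ X := hF.2.self_of_nhds
  have hfan : AnalyticAt ℂ (fun w => χ₀.q (F w)) z := (χ₀.q_an _ hU).comp hFan
  obtain ⟨hfb, -⟩ := χ₀.surj _ hFX hU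
  have hUχ : F z ∈ χ.U := by
    obtain ⟨hb, c, hc, hx⟩ := χ₀.surj _ hFX hU
    rw [hx]
    exact χ.smul_U _ (hsub _ hb) c hc
  have hρ : (ρ₀ : ℂ) ≠ 0 := by exact_mod_cast hm₀.pos.ne'
  obtain ⟨δΛ, hδΛ, hdisc⟩ := hΛ.discrete
  have hev : ∀ᶠ w in 𝓝 z, c₀ + ρ₀ * (χ₀.q (F w)).1 = w := by
    have hcont : ContinuousAt (fun w => c₀ + ρ₀ * (χ₀.q (F w)).1 - w) z := by
      have h1 : ContinuousAt (fun w => (χ₀.q (F w)).1) z := continuousAt_fst.comp hfan.continuousAt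
      exact ((continuousAt_const.add (continuousAt_const.mul h1)).sub continuousAt_id)
    have h2 : ∀ᶠ w in 𝓝 z, ‖c₀ + ρ₀ * (χ₀.q (F w)).1 - w‖ < δΛ := by
      have h3 := hcont.norm.tendsto
      refine h3.eventually_lt_const ?_
      rw [hz, sub_self, norm_zero]
      exact hδΛ
    have h4 : ∀ᶠ w in 𝓝 z, F w ∈ χ₀.U := hFan.continuousAt.eventually (χ₀.isOpen_U.mem_nhds hU)
    filter_upwards [h2, h4, hF.2, hFu] with w hw hwU hwX hwu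
    obtain ⟨hb, c, hc, hx⟩ := χ₀.surj _ hwX hwU
    have h5 := hm₀.lift _ hb
    have h6 := hu.smul _ (χ₀.σ_mem _ hb).1 c hc
    rw [← hx] at h6
    have h7 := hwu
    rw [Kq_mo] at h5
    have h8 : c₀ + ρ₀ * (χ₀.q (F w)).1 - w ∈ Λ := by
      have := Λ.sub_mem (Λ.sub_mem h7 h6) h5
      convert this using 1
      ring
    exact sub_eq_zero.1 (hdisc _ h8 hw)
  have hd := hfan.differentiableAt.hasDerivAt
  have hd1 : (deriv (fun w => χ₀.q (F w)) z).1 = 1 / ρ₀ := by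
    have h1 : HasDerivAt (fun w => (χ₀.q (F w)).1) (deriv (fun w => χ₀.q (F w)) z).1 z :=
      HasFDerivAt.comp_hasDerivAt (f := fun w => χ₀.q (F w)) z
        (ContinuousLinearMap.fst ℂ ℂ ℂ).hasFDerivAt hd
    have h2 : (fun w => (χ₀.q (F w)).1) =ᶠ[𝓝 z] fun w => (w - c₀) / ρ₀ := by
      filter_upwards [hev] with w hw
      rw [eq_div_iff hρ]
      linear_combination hw
    have h3 : HasDerivAt (fun w : ℂ => (w - c₀) / ρ₀) (1 / ρ₀) z := ((hasDerivAt_id z).sub_const c₀).div_const _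
    exact h1.unique (h3.congr_of_eventuallyEq h2)
  have hpb : ‖mo c₀ ρ₀ 1 0 (χ₀.q (F z)) - b‖ < η := by rw [Kq_mo, hz]; exact hzb
  have h1 := q_fderiv hX hu hinj hm hr hm₀ hA hA₀ hsub hQ hQ0 hfb hpb
  have h2 := (hQ _ hfb).2
  have h3 : HasDerivAt (fun w => Q (χ₀.q (F w))) (fderiv ℂ Q (χ₀.q (F z)) (deriv (fun w => χ₀.q (F w)) z)) z :=
    HasFDerivAt.comp_hasDerivAt (f := fun w => χ₀.q (F w)) z (hQ _ hfb).1.differentiableAt.hasFDerivAt hd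
  have hz1 : (χ₀.q (F z)).1 = (z - c₀) / ρ₀ := by
    rw [eq_div_iff hρ]
    linear_combination hz
  rw [Kq_pair, h1, h2, hd1] at h3
  rw [bt_eq χ χ₀ A hcur hU hUχ, hd1, ← hz1]
  convert h3 using 1
  field_simp
  ring


end Pool.Agent.TGY
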