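import Pool.Agent.TG.Y.Frm
import Pool.Agent.H62.EL.Defs

/-!
# TG Y Rf: the form restricted to the slab

`Ln.form`: all fields by `Ln.frame_indep` (tangent vectors of `Y`: `Ln.tan`) from the fields of `α`:
`add_smul`: `α.add_smul` (coefficients `a, b, 0, …`).  `det`: `α.det` with the block matrix `(a b; c d) ⊕ 1`, determinant `a d - b c`.  `scale`: `α.scale`, `Ln.wl_smul`, and `c • lf x` is a frame at `c • x` (`DV.smul_pt`).
`analytic`: let `x₀ = φ q₀ ∈ Y`, `χ`, `lam` from `Ln.frame_coord`; `υ'` from `exists_lift_chart` with `υ' (χ.q x₀) = p + wl x₀ • e`; for `q` near `q₀` (`x = φ q ∈ Y` near `x₀`): `υ' (χ.q x) = p + wl x • e` (the difference is in `Λ`, continuous by `Ln.exists_loc` and `0` at `q₀`; `Lat.disc`),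
and by `toFun_eq` and `frame_indep` (choose `ℓ j` with `fderiv χ.q x (ℓ j) = lam x j`, `exists_tan`) the value is `det (rows fderiv χ.q x (∂₁ φ), fderiv χ.q x (∂₂ φ), lam x j) * tc α χ υ' (χ.q x)`, analytic in `q` (`tc_an`; `fderiv χ.q (φ q) (∂ φ)` is analytic: `fderiv` of analytic functions,
composition `ContinuousLinearMap` evaluation; the determinant is a polynomial: `Matrix.det_apply`, `Finset.analyticAt_sum`/`prod`).
`Ln.form_eq`: `frame_indep`.
-/

set_option autoImplicit false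

open Topology Filter Metric

namespace Pool.Agent.TG

open Pool.Agent.H36.BP (EN fs wd)
open Pool.Agent.H14.PP (IsCone CurveAt Tan)
open Pool.Agent.H62.EF (MN pr)
open Pool.Agent.AD (Vd Chart Charts IsGerm)

variable {N k : ℕ}


variable {X : Set (EN N)} {Λ : AddSubgroup (Vd (k + 1))} {u : EN N → Vd (k + 1)} {D B : Set (Vd (k + 1))}
  {κ : Vd (k + 1) → Vd (k + 1)} {p e : Vd (k + 1)} {c : ℂ → Vd (k + 1)} {Γ₀ : AddSubgroup ℂ} {s : ℝ}

open Classical in
/-- a frame at `x` -/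
noncomputable def lf (X : Set (EN N)) (Λ : AddSubgroup (Vd (k + 1))) (u : EN N → Vd (k + 1)) (p e : Vd (k + 1)) (s : ℝ)
    (κ : Vd (k + 1) → Vd (k + 1)) (c : ℂ → Vd (k + 1)) (x : EN N) : Fin k → EN N :=
  if h : ∃ ℓ : Fin k → EN N, ∀ j, DV X Λ u x (ℓ j) (fr κ c (wl Λ u p e s x) j) then h.choose else 0

theorem Ln.lf_spec (L : Ln X Λ u D κ p e c Γ₀ s) {x : EN N} (hx : x ∈ Yl X Λ u p e s) (j : Fin k) :
    DV X Λ u x (lf X Λ u p e s κ c x j) (fr κ c (wl Λ u p e s x) j) := by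
  have h := L.exists_frame hx
  unfold lf
  rw [dif_pos h]
  exact h.choose_spec j

private theorem Rf_det (a b c d : ℂ) :
    (Matrix.of fun i j => (Fin.cons (Fin.cons a (Fin.cons b 0) : Fin (k + 2) → ℂ)
      (Fin.cons (Fin.cons c (Fin.cons d 0) : Fin (k + 2) → ℂ) fun i : Fin k => (Pi.single i.succ.succ 1 : Fin (k + 2) → ℂ)) :
        Fin (k + 2) → Fin (k + 2) → ℂ) i j).det = a * d - b * c := by
  rw [Matrix.det_succ_row_zero, Fin.sum_univ_succ, Fin.sum_univ_succ]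
  have h1 : ∀ i : Fin k, (Matrix.of fun i j => (Fin.cons (Fin.cons a (Fin.cons b 0) : Fin (k + 2) → ℂ)
      (Fin.cons (Fin.cons c (Fin.cons d 0) : Fin (k + 2) → ℂ) fun i : Fin k => (Pi.single i.succ.succ 1 : Fin (k + 2) → ℂ)) :
        Fin (k + 2) → Fin (k + 2) → ℂ) i j) 0 i.succ.succ = 0 := fun i => rfl
  simp only [h1]
  simp only [mul_zero, zero_mul, Finset.sum_const_zero, add_zero]
  have e1 : ((Matrix.of fun i j => (Fin.cons (Fin.cons a (Fin.cons b 0) : Fin (k + 2) → ℂ)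
      (Fin.cons (Fin.cons c (Fin.cons d 0) : Fin (k + 2) → ℂ) fun i : Fin k => (Pi.single i.succ.succ 1 : Fin (k + 2) → ℂ)) :
        Fin (k + 2) → Fin (k + 2) → ℂ) i j).submatrix Fin.succ (Fin.succAbove 0)) =
      Matrix.diagonal (Fin.cons d fun _ => 1 : Fin (k + 1) → ℂ) := by
    ext i j
    rw [Fin.succAbove_zero]
    refine Fin.cases ?_ (fun i => ?_) i <;> refine Fin.cases ?_ (fun j => ?_) j
    · simp
    · rw [Matrix.diagonal_apply_ne _ (Fin.succ_ne_zero _).symm]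
      rfl
    · rw [Matrix.diagonal_apply_ne _ (Fin.succ_ne_zero _)]
      show (Pi.single i.succ.succ 1 : Fin (k + 2) → ℂ) (Fin.succ 0) = 0
      apply Pi.single_eq_of_ne
      intro h
      have h' := congrArg Fin.val h
      simp at h'
    · show (Pi.single i.succ.succ 1 : Fin (k + 2) → ℂ) j.succ.succ = _
      by_cases h : j = i
      · subst h; simp
      · rw [Pi.single_eq_of_ne, Matrix.diagonal_apply_ne]
        · exact fun h' => h (Fin.succ_injective _ h').symm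
        · exact fun h' => h (Fin.succ_injective _ (Fin.succ_injective _ h'))
  have e2 : ((Matrix.of fun i j => (Fin.cons (Fin.cons a (Fin.cons b 0) : Fin (k + 2) → ℂ)
      (Fin.cons (Fin.cons c (Fin.cons d 0) : Fin (k + 2) → ℂ) fun i : Fin k => (Pi.single i.succ.succ 1 : Fin (k + 2) → ℂ)) :
        Fin (k + 2) → Fin (k + 2) → ℂ) i j).submatrix Fin.succ (Fin.succAbove (Fin.succ 0))) =
      Matrix.diagonal (Fin.cons c fun _ => 1 : Fin (k + 1) → ℂ) := by
    ext i j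
    have hj : ∀ j : Fin k, (Fin.succAbove (Fin.succ 0 : Fin (k + 2)) j.succ) = j.succ.succ := by
      intro j
      rw [Fin.succ_succAbove_succ, Fin.succAbove_zero]
    have hj0 : (Fin.succAbove (Fin.succ 0 : Fin (k + 2)) (0 : Fin (k + 1))) = 0 := Fin.succ_succAbove_zero _
    rw [Matrix.submatrix_apply]
    refine Fin.cases ?_ (fun i => ?_) i <;> refine Fin.cases ?_ (fun j => ?_) j
    · rw [hj0]; simp
    · rw [hj, Matrix.diagonal_apply_ne _ (Fin.succ_ne_zero _).symm]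
      rfl
    · rw [hj0, Matrix.diagonal_apply_ne _ (Fin.succ_ne_zero _)]
      show (Pi.single i.succ.succ 1 : Fin (k + 2) → ℂ) 0 = 0
      exact Pi.single_eq_of_ne (Fin.succ_ne_zero _).symm _
    · rw [hj]
      show (Pi.single i.succ.succ 1 : Fin (k + 2) → ℂ) j.succ.succ = _
      by_cases h : j = i
      · subst h; simp
      · rw [Pi.single_eq_of_ne, Matrix.diagonal_apply_ne]
        · exact fun h' => h (Fin.succ_injective _ h').symm
        · exact fun h' => h (Fin.succ_injective _ (Fin.succ_injective _ h'))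
  rw [e1, e2, Matrix.det_diagonal, Matrix.det_diagonal, Fin.prod_univ_succ, Fin.prod_univ_succ]
  simp
  ring

/-- tangent vectors of the slab with a frame -/
private theorem Rf_tan (L : Ln X Λ u D κ p e c Γ₀ s) {x v w : EN N} (hx : x ∈ Yl X Λ u p e s) (hv : Tan (Yl X Λ u p e s) x v)
    (hw : Tan (Yl X Λ u p e s) x w) (i : Fin (k + 2)) : Tan X x ((Fin.cons v (Fin.cons w (lf X Λ u p e s κ c x)) : Fin (k + 2) → EN N) i) := by
  obtain ⟨a, ha⟩ := L.tan hx hv
  obtain ⟨b, hb⟩ := L.tan hx hw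
  refine Fin.cases ?_ (fun i => ?_) i
  · exact ha.tan
  · refine Fin.cases ?_ (fun i => ?_) i
    · exact hb.tan
    · exact (L.lf_spec hx i).tan

private theorem Rf_det_an {E : Type*} [NormedAddCommGroup E] [NormedSpace ℂ E] {m : ℕ} {M : E → Matrix (Fin m) (Fin m) ℂ} {z : E}
    (h : ∀ i j, AnalyticAt ℂ (fun y => M y i j) z) : AnalyticAt ℂ (fun y => (M y).det) z := by
  simp only [Matrix.det_apply']
  refine Finset.analyticAt_fun_sum _ fun σ _ => ?_
  exact analyticAt_const.mul (Finset.analyticAt_fun_prod _ fun i _ => h _ _)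

/-- the lift of `u` along the slab -/
private theorem Rf_lift (L : Ln X Λ u D κ p e c Γ₀ s) (χ : Chart (k + 2) X) {x₀ : EN N} (hx₀ : x₀ ∈ Yl X Λ u p e s) (hU : x₀ ∈ χ.U)
    {υ : Vd (k + 2) → Vd (k + 1)} (hυ : AnalyticAt ℂ υ (χ.q x₀)) (hυe : υ (χ.q x₀) = p + wl Λ u p e s x₀ • e)
    (hυl : ∀ᶠ q in 𝓝 (χ.q x₀), u (χ.σ q) - υ q ∈ Λ) :
    ∀ᶠ x in 𝓝 x₀, x ∈ Yl X Λ u p e s → υ (χ.q x) = p + wl Λ u p e s x • e := by
  obtain ⟨W, hW, hWl⟩ := L.exists_loc hx₀
  have hW0 : wl Λ u p e s x₀ = W x₀ := hWl.self_of_nhds hx₀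
  obtain ⟨δ, hδ, hd⟩ := L.lat.disc
  have hqt : Tendsto χ.q (𝓝 x₀) (𝓝 (χ.q x₀)) := (χ.q_an x₀ hU).continuousAt
  have h1 : Tendsto (fun x => υ (χ.q x) - (p + W x • e)) (𝓝 x₀) (𝓝 (υ (χ.q x₀) - (p + W x₀ • e))) :=
    (hυ.continuousAt.tendsto.comp hqt).sub (tendsto_const_nhds.add (hW.continuousAt.tendsto.smul_const e))
  rw [hυe, hW0, sub_self] at h1
  have h2 : ∀ᶠ x in 𝓝 x₀, ‖υ (χ.q x) - (p + W x • e)‖ < δ := by
    apply h1.norm.eventually_lt_const
    rwa [norm_zero]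
  filter_upwards [hWl, h2, χ.isOpen_U.mem_nhds hU, hqt.eventually hυl] with x k1 k2 k3 k4 hx
  obtain ⟨hb, c', hc', hcx⟩ := χ.surj x hx.1 k3
  have k5 := smul_mem_lat L.tor (χ.σ_mem _ hb).1 k4 hc'
  rw [← hcx] at k5
  have k6 := Λ.sub_mem (Ln.wl_spec hx).2 k5
  have k7 : u x - (p + wl Λ u p e s x • e) - (u x - υ (χ.q x)) = υ (χ.q x) - (p + wl Λ u p e s x • e) := by abel
  rw [k7] at k6
  rw [k1 hx] at k6 ⊢
  exact sub_eq_zero.1 (hd _ k6 k2)

/-- the restricted form -/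
noncomputable def Ln.form (L : Ln X Λ u D κ p e c Γ₀ s) (α : VForm X Λ u) :
    Pool.Agent.H62.EL.TForm (Yl X Λ u p e s) Γ₀ (wl Λ u p e s) where
  toFun := fun _ x v w => α.toFun (p + wl Λ u p e s x • e) x (Fin.cons v (Fin.cons w (lf X Λ u p e s κ c x)))
  add_smul := by
    intro z x hx _ v w hv hw a b
    have h1 := α.add_smul _ x hx.1 (Ln.wl_spec hx).2 _ (Rf_tan L hx hv hw) (Fin.cons a (Fin.cons b 0))
    rw [← h1]
    congr 1
    funext i
    refine Fin.cases ?_ (fun i => ?_) i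
    · rfl
    · refine Fin.cases ?_ (fun i => ?_) i
      · rfl
      · simp
  det := by
    intro z x hx _ v w hv hw a b c' d
    have h1 := α.det _ x hx.1 (Ln.wl_spec hx).2 _ (Rf_tan L hx hv hw)
      (Matrix.of fun i j => (Fin.cons (Fin.cons a (Fin.cons b 0) : Fin (k + 2) → ℂ)
      (Fin.cons (Fin.cons c' (Fin.cons d 0) : Fin (k + 2) → ℂ) fun i : Fin k => (Pi.single i.succ.succ 1 : Fin (k + 2) → ℂ)) :
        Fin (k + 2) → Fin (k + 2) → ℂ) i j)
    rw [Rf_det] at h1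
    rw [← h1]
    congr 1
    funext i
    rw [Fin.sum_univ_succ, Fin.sum_univ_succ]
    refine Fin.cases ?_ (fun i => ?_) i
    · simp [Matrix.of_apply]
    · refine Fin.cases ?_ (fun i => ?_) i
      · simp [Matrix.of_apply]
      · simp only [Matrix.of_apply, Fin.cons_succ, Fin.cons_zero]
        rw [Pi.single_eq_of_ne (Fin.succ_ne_zero _).symm, Pi.single_eq_of_ne (fun h => by have h' := congrArg Fin.val h; simp at h'),
          zero_smul, zero_smul, zero_add, zero_add, Finset.sum_eq_single i]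
        · simp
        · intro j _ hj
          rw [Pi.single_eq_of_ne (fun h => hj (Fin.succ_injective _ (Fin.succ_injective _ h))), zero_smul]
        · intro h
          exact absurd (Finset.mem_univ i) h
  scale := by
    intro z x hx _ v w hv hw a ha
    obtain ⟨b₁, hb₁⟩ := L.tan hx hv
    obtain ⟨b₂, hb₂⟩ := L.tan hx hw
    have hax : a • x ∈ Yl X Λ u p e s := L.isCone.smul_mem x hx a ha
    have h1 := L.frame_indep α hax (hb₁.smul_pt L.cone L.tor ha) (hb₂.smul_pt L.cone L.tor ha) (L.lf_spec hax)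
      (ℓ' := fun j => a • lf X Λ u p e s κ c x j) (fun j => by
        rw [L.wl_smul hx ha]
        exact (L.lf_spec hx j).smul_pt L.cone L.tor ha)
    rw [h1, L.wl_smul hx ha]
    have h2 := α.scale _ x hx.1 (Ln.wl_spec hx).2 _ (Rf_tan L hx hv hw) a ha
    rw [← h2]
    congr 1
    funext i
    refine Fin.cases ?_ (fun i => ?_) i
    · rfl
    · refine Fin.cases ?_ (fun i => ?_) i
      · rfl
      · rfl
  analytic := by
    intro φ υ₀ q₀ hφ _ hev
    have hx₀ : φ q₀ ∈ Yl X Λ u p e s := hev.self_of_nhds.1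
    obtain ⟨χ, lam, hU, hlam, hfr⟩ := L.frame_coord hx₀
    obtain ⟨υ, hυ, hυe, hυl⟩ := exists_lift_chart L.cone L.tor χ hx₀.1 hU (Ln.wl_spec hx₀).2
    have hb₀ : χ.q (φ q₀) ∈ ball (0 : Vd (k + 2)) 2 := (χ.surj _ hx₀.1 hU).1
    have hqφ : AnalyticAt ℂ (fun y => χ.q (φ y)) q₀ := AnalyticAt.fun_comp (χ.q_an _ hU) hφ
    have htc : AnalyticAt ℂ (fun y => tc α χ υ (χ.q (φ y))) q₀ := AnalyticAt.fun_comp (tc_an α χ hb₀ hυ hυl) hqφ
    have hrow : ∀ (v : ℂ × ℂ) (i : Fin (k + 2)), AnalyticAt ℂ (fun y => fderiv ℂ (fun y => χ.q (φ y)) y v i) q₀ := by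
      intro v i
      have h2 : AnalyticAt ℂ (fun A : ℂ × ℂ →L[ℂ] Vd (k + 2) => A v) (fderiv ℂ (fun y => χ.q (φ y)) q₀) :=
        (ContinuousLinearMap.apply ℂ (Vd (k + 2)) v).analyticAt _
      have h3 : AnalyticAt ℂ (fun y => fderiv ℂ (fun y => χ.q (φ y)) y v) q₀ :=
        AnalyticAt.comp (g := fun A : ℂ × ℂ →L[ℂ] Vd (k + 2) => A v) (f := fun y => fderiv ℂ (fun y => χ.q (φ y)) y) h2 hqφ.fderiv
      exact (analyticAt_pi_iff.1 h3) i
    have hlamφ : AnalyticAt ℂ (fun y => lam (φ y)) q₀ := AnalyticAt.fun_comp hlam hφ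
    have hdet : AnalyticAt ℂ (fun y => (Matrix.of fun i j => (Fin.cons (fderiv ℂ (fun y => χ.q (φ y)) y (1, 0))
        (Fin.cons (fderiv ℂ (fun y => χ.q (φ y)) y (0, 1)) (lam (φ y))) : Fin (k + 2) → Vd (k + 2)) i j).det) q₀ := by
      refine Rf_det_an fun i j => ?_
      refine Fin.cases ?_ (fun i => ?_) i
      · exact hrow _ j
      · refine Fin.cases ?_ (fun i => ?_) i
        · exact hrow _ j
        · exact (analyticAt_pi_iff.1 ((analyticAt_pi_iff.1 hlamφ) i)) j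
    refine (hdet.mul htc).congr ?_
    have hφt : Tendsto φ (𝓝 q₀) (𝓝 (φ q₀)) := hφ.continuousAt
    filter_upwards [hev.eventually_nhds, hφ.eventually_analyticAt, hφt.eventually hfr, hφt.eventually (Rf_lift L χ hx₀ hU hυ hυe hυl),
      hφt.eventually (χ.isOpen_U.mem_nhds hU)] with y h1 h2 h3 h4 h5
    have hy : φ y ∈ Yl X Λ u p e s := h1.self_of_nhds.1
    -- tangent vectors
    have htan : ∀ v : ℂ × ℂ, Tan (Yl X Λ u p e s) (φ y) (fderiv ℂ φ y v) := by
      intro v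
      have hl : AnalyticAt ℂ (fun z : ℂ => y + z • v) 0 := by fun_prop
      have h0 : y + (0 : ℂ) • v = y := by simp
      have hσ : AnalyticAt ℂ φ (y + (0 : ℂ) • v) := by rw [h0]; exact h2
      refine ⟨fun z => φ (y + z • v), ⟨AnalyticAt.comp (g := φ) (f := fun z : ℂ => y + z • v) hσ hl, ?_⟩, by simp, ?_⟩
      · have ht : Tendsto (fun z : ℂ => y + z • v) (𝓝 0) (𝓝 y) := by
          have h6 := hl.continuousAt.tendsto
          rwa [h0] at h6
        exact (ht.eventually h1).mono fun z hz => hz.1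
      · have k1 : HasFDerivAt φ (fderiv ℂ φ y) (y + (0 : ℂ) • v) := by
          rw [h0]; exact h2.differentiableAt.hasFDerivAt
        have k2 : HasDerivAt (fun z : ℂ => y + z • v) v 0 := by
          have k3 : HasDerivAt (fun z : ℂ => z • v) ((1 : ℂ) • v) 0 := (hasDerivAt_id (0 : ℂ)).smul_const v
          rw [one_smul] at k3
          exact k3.const_add y
        exact (k1.comp_hasDerivAt (0 : ℂ) k2).deriv
    have hchain : ∀ v : ℂ × ℂ, fderiv ℂ χ.q (φ y) (fderiv ℂ φ y v) = fderiv ℂ (fun y => χ.q (φ y)) y v := by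
      intro v
      have k3 : HasFDerivAt (fun y => χ.q (φ y)) ((fderiv ℂ χ.q (φ y)).comp (fderiv ℂ φ y)) y :=
        (χ.q_an _ h5).differentiableAt.hasFDerivAt.comp y h2.differentiableAt.hasFDerivAt
      rw [k3.fderiv]
      rfl
    have hℓ : ∀ j, ∃ w : EN N, Tan X (φ y) w ∧ fderiv ℂ χ.q (φ y) w = lam (φ y) j := fun j => exists_tan L.cone χ hy.1 h5 _
    choose ℓ hℓ1 hℓ2 using hℓ
    have hℓ3 : ∀ j, DV X Λ u (φ y) (ℓ j) (fr κ c (wl Λ u p e s (φ y)) j) := fun j => h3 hy j _ (hℓ1 j) (hℓ2 j)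
    obtain ⟨a, ha⟩ := L.tan hy (htan (1, 0))
    obtain ⟨b, hb⟩ := L.tan hy (htan (0, 1))
    show _ = α.toFun (p + wl Λ u p e s (φ y) • e) (φ y) (Fin.cons (fderiv ℂ φ y (1, 0)) (Fin.cons (fderiv ℂ φ y (0, 1)) (lf X Λ u p e s κ c (φ y))))
    rw [L.frame_indep α hy ha hb (L.lf_spec hy) hℓ3, toFun_eq L.cone L.tor α χ hy.1 h5 (Ln.wl_spec hy).2 (h4 hy) _ (by
      intro i
      refine Fin.cases ?_ (fun i => ?_) i
      · exact ha.tan
      · refine Fin.cases ?_ (fun i => ?_) i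
        · exact hb.tan
        · exact hℓ1 i)]
    refine congrArg (fun z : ℂ => z * tc α χ υ (χ.q (φ y))) (congrArg Matrix.det ?_)
    ext i j
    refine Fin.cases ?_ (fun i => ?_) i
    · exact (congrFun (hchain (1, 0)) j).symm
    · refine Fin.cases ?_ (fun i => ?_) i
      · exact (congrFun (hchain (0, 1)) j).symm
      · exact (congrFun (hℓ2 i) j).symm

theorem Ln.form_eq (L : Ln X Λ u D κ p e c Γ₀ s) (α : VForm X Λ u) (z : ℂ) {x v w : EN N} (hx : x ∈ Yl X Λ u p e s)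
    (hv : Tan (Yl X Λ u p e s) x v) (hw : Tan (Yl X Λ u p e s) x w) {ℓ : Fin k → EN N}
    (hℓ : ∀ j, DV X Λ u x (ℓ j) (fr κ c (wl Λ u p e s x) j)) :
    (L.form α).toFun z x v w = α.toFun (p + wl Λ u p e s x • e) x (Fin.cons v (Fin.cons w ℓ)) := by
  obtain ⟨a, ha⟩ := L.tan hx hv
  obtain ⟨b, hb⟩ := L.tan hx hw
  exact L.frame_indep α hx ha hb (L.lf_spec hx) hℓ

end Pool.Agent.TG
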