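import Pool.Agent.TG.Gd

/-!
# TG Y Sl: the part of `X` over a small disc which crosses `D`

`Yl` is the part of `X` over the closed disc `{p + z e : ‖z‖ ≤ s}`, `wl` the coordinate `z` on it.  `Ln` collects the data near a point `p ∈ D`, `p ∉ B`, for a direction `e` which is not
tangent to `D`: `κ` are the coordinates of `D`, `c z = κ⁻¹ (p + z e)`.  `fr κ c z j = ∂κ/∂q_{j+1}` at `c z`: together with `e` a basis.
-/

set_option autoImplicit false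

open Topology Filter Metric

namespace Pool.Agent.TG

open Pool.Agent.H36.BP (EN fs wd)
open Pool.Agent.H14.PP (IsCone CurveAt Tan)
open Pool.Agent.H62.EF (MN pr)
open Pool.Agent.AD (Vd Chart Charts IsGerm)

variable {N k : ℕ}


variable (X : Set (EN N)) (Λ : AddSubgroup (Vd (k + 1))) (u : EN N → Vd (k + 1))

/-- the part of `X` over the closed disc of radius `s` in the line `p + ℂ e` -/
def Yl (p e : Vd (k + 1)) (s : ℝ) : Set (EN N) := {x | x ∈ X ∧ ∃ z : ℂ, ‖z‖ ≤ s ∧ u x - (p + z • e) ∈ Λ}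

open Classical in
/-- the coordinate `z` -/
noncomputable def wl (p e : Vd (k + 1)) (s : ℝ) (x : EN N) : ℂ := if h : ∃ z : ℂ, ‖z‖ ≤ s ∧ u x - (p + z • e) ∈ Λ then h.choose else 0

/-- the vectors `∂κ/∂q_{j+1}` at `c z` -/
noncomputable def fr (κ : Vd (k + 1) → Vd (k + 1)) (c : ℂ → Vd (k + 1)) (z : ℂ) (j : Fin k) : Vd (k + 1) := fderiv ℂ κ (c z) (Pi.single j.succ 1)

/-- the determinant of `e` and the vectors `fr` -/
noncomputable def dt (κ : Vd (k + 1) → Vd (k + 1)) (e : Vd (k + 1)) (c : ℂ → Vd (k + 1)) (z : ℂ) : ℂ :=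
  (Matrix.of fun i j => (Fin.cons e (fr κ c z) : Fin (k + 1) → Vd (k + 1)) i j).det

/-- the data near `p` -/
structure Ln (D : Set (Vd (k + 1))) (κ : Vd (k + 1) → Vd (k + 1)) (p e : Vd (k + 1)) (c : ℂ → Vd (k + 1)) (Γ₀ : AddSubgroup ℂ) (s : ℝ) : Prop where
  cone : IsCone X
  charts : Charts (k + 2) X
  tor : TMap X Λ u
  lat : Lat Λ
  lat₀ : Pool.Agent.H62.EF.Lat Γ₀
  pos : 0 < s
  e_ne : e ≠ 0
  small : ∀ l ∈ Λ, ‖l‖ ≤ 4 * s * ‖e‖ → l = 0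
  big : ∀ l ∈ Γ₀, ‖l‖ ≤ 8 * s → l = 0
  off : ∀ z : ℂ, z ≠ 0 → ‖z‖ ≤ s → p + z • e ∉ D
  sub : ∀ y ∉ D, ∀ x ∈ X, u x - y ∈ Λ → IsStr X Λ u x y
  nc : ∀ x ∈ X, u x - p ∈ Λ → IsNC X Λ u κ x
  c_zero : c 0 = 0
  c_ne : (deriv c 0) 0 ≠ 0
  c_an : ∀ z ∈ closedBall (0 : ℂ) s, AnalyticAt ℂ c z
  κ_an : ∀ z ∈ closedBall (0 : ℂ) s, AnalyticAt ℂ κ (c z)
  κ_c : ∀ z ∈ closedBall (0 : ℂ) s, κ (c z) = p + z • e
  dt_ne : ∀ z ∈ closedBall (0 : ℂ) s, dt κ e c z ≠ 0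

end Pool.Agent.TG
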