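import Pool.Agent.TG.Y.Sl

/-!
# TG Y SlA: the slab is a cone with a map to `ℂ / Γ₀`

`wl_spec`: `Exists.choose_spec`.  `wl_eq`: two values `z, z'` with `‖z‖, ‖z'‖ ≤ s`: `(z - z') • e ∈ Λ` has norm `≤ 2 s ‖e‖`, so it is `0` (`L.small`), `z = z'` (`e ≠ 0`).
`isCone`: `smul_mem`: `smul_mem_lat`.  `closed`: let `x_n → x`, `x_n ∈ insert 0 Y`; `x = 0`, or `x ∈ X` (`L.cone.closed`) and eventually `x_n ≠ 0`, `x_n ∈ Y` with `z_n` in the compact disc, along a subsequence (or ultrafilter) `z_n → z`, `lim_mem`.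
`exists_loc`: let `v` be a local lift of `u` at `x` (`TMap.loc`), changed by a constant of `Λ` such that `v x = p + wl x • e`.  For `y ∈ Y` near `x`: `l = v y - (p + wl y • e) ∈ Λ`, and `‖l‖ ≤ ‖v y - v x‖ + ‖(wl x - wl y) • e‖ ≤ ‖v y - v x‖ + 2 s ‖e‖ ≤ 4 s ‖e‖` for `y` near `x`
(`s ‖e‖ > 0`), so `l = 0`, `v y = p + wl y • e`.  With a linear form `ℓ`, `ℓ e = 1`: `wl y = ℓ (v y - p)`: `W y = ℓ (v y - p)`.
`torusMap`: `smul`: `wl (c • x) = wl x` for `x ∈ Y` (`wl_eq`), `loc` from `exists_loc`.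
-/

set_option autoImplicit false

open Topology Filter Metric

namespace Pool.Agent.TG

open Pool.Agent.H36.BP (EN fs wd)
open Pool.Agent.H14.PP (IsCone CurveAt Tan)
open Pool.Agent.H62.EF (MN pr)
open Pool.Agent.AD (Vd Chart Charts IsGerm)

variable {N k : ℕ}


variable {X : Set (EN N)} {Λ : AddSubgroup (Vd (k + 1))} {u : EN N → Vd (k + 1)} {D B : Set (Vd (k + 1))}
  {κ : Vd (k + 1) → Vd (k + 1)} {p e : Vd (k + 1)} {c : ℂ → Vd (k + 1)} {Γ₀ : AddSubgroup ℂ} {s : ℝ}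

theorem Ln.wl_spec {x : EN N} (hx : x ∈ Yl X Λ u p e s) : ‖wl Λ u p e s x‖ ≤ s ∧ u x - (p + wl Λ u p e s x • e) ∈ Λ := by
  unfold wl
  rw [dif_pos hx.2]
  exact hx.2.choose_spec

theorem Ln.wl_eq (L : Ln X Λ u D κ p e c Γ₀ s) {x : EN N} {z : ℂ} (hz : ‖z‖ ≤ s) (h : u x - (p + z • e) ∈ Λ) : wl Λ u p e s x = z := by
  have hex : ∃ z : ℂ, ‖z‖ ≤ s ∧ u x - (p + z • e) ∈ Λ := ⟨z, hz, h⟩
  have h1 : ‖wl Λ u p e s x‖ ≤ s ∧ u x - (p + wl Λ u p e s x • e) ∈ Λ := by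
    unfold wl
    rw [dif_pos hex]
    exact hex.choose_spec
  have h2 : (z - wl Λ u p e s x) • e ∈ Λ := by
    have h3 : (z - wl Λ u p e s x) • e = (u x - (p + wl Λ u p e s x • e)) - (u x - (p + z • e)) := by
      rw [sub_smul]
      abel
    rw [h3]
    exact Λ.sub_mem h1.2 h
  have h4 : (z - wl Λ u p e s x) • e = 0 := by
    refine L.small _ h2 ?_
    rw [norm_smul]
    have h5 : ‖z - wl Λ u p e s x‖ ≤ s + s := (norm_sub_le _ _).trans (add_le_add hz h1.1)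
    have h6 := mul_le_mul_of_nonneg_right h5 (norm_nonneg e)
    have h7 := mul_nonneg L.pos.le (norm_nonneg e)
    linarith
  rcases smul_eq_zero.1 h4 with h5 | h5
  · exact (sub_eq_zero.1 h5).symm
  · exact absurd h5 L.e_ne

theorem Ln.wl_smul (L : Ln X Λ u D κ p e c Γ₀ s) {x : EN N} (hx : x ∈ Yl X Λ u p e s) {a : ℂ} (ha : a ≠ 0) :
    wl Λ u p e s (a • x) = wl Λ u p e s x := by
  have h1 := Ln.wl_spec hx
  exact L.wl_eq h1.1 (smul_mem_lat L.tor hx.1 h1.2 ha)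

theorem Ln.isCone (L : Ln X Λ u D κ p e c Γ₀ s) : IsCone (Yl X Λ u p e s) := by
  refine ⟨fun h => L.cone.zero_notMem h.1, fun x hx a ha => ?_, ?_⟩
  · obtain ⟨hxX, z, hz, hzx⟩ := hx
    exact ⟨L.cone.smul_mem x hxX a ha, z, hz, smul_mem_lat L.tor hxX hzx ha⟩
  · refine IsSeqClosed.isClosed fun x x₀ hx hlim => ?_
    have hx₀ : x₀ ∈ insert (0 : EN N) X := by
      refine L.cone.closed.mem_of_tendsto hlim (Eventually.of_forall fun n => ?_)
      rcases hx n with h | h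
      · exact Or.inl h
      · exact Or.inr h.1
    rcases hx₀ with h0 | hx₀
    · exact Or.inl h0
    · right
      have hne : x₀ ≠ 0 := ne_zero L.cone hx₀
      have hev : ∀ᶠ n in atTop, x n ∈ Yl X Λ u p e s := by
        filter_upwards [hlim.eventually_ne hne] with n hn
        exact (hx n).resolve_left hn
      set 𝒰 : Ultrafilter ℕ := hyperfilter ℕ with h𝒰
      have hevU : ∀ᶠ n in (𝒰 : Filter ℕ), x n ∈ Yl X Λ u p e s := Nat.hyperfilter_le_atTop hev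
      obtain ⟨z, hz, hzt⟩ := (isCompact_closedBall (0 : ℂ) s).ultrafilter_le_nhds (𝒰.map fun n => wl Λ u p e s (x n)) (by
        rw [Ultrafilter.coe_map, le_principal_iff, mem_map]
        filter_upwards [hevU] with n hn
        show wl Λ u p e s (x n) ∈ closedBall (0 : ℂ) s
        rw [mem_closedBall_zero_iff]
        exact (Ln.wl_spec hn).1)
      have hzt' : Tendsto (fun n => wl Λ u p e s (x n)) 𝒰 (𝓝 z) := hzt
      have hxt : Tendsto x 𝒰 (𝓝 x₀) := hlim.mono_left Nat.hyperfilter_le_atTop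
      refine ⟨hx₀, z, mem_closedBall_zero_iff.1 hz, ?_⟩
      refine lim_mem L.lat L.tor (l := (𝒰 : Filter ℕ)) (y := fun n => p + wl Λ u p e s (x n) • e) hx₀ hxt ?_ ?_
      · exact tendsto_const_nhds.add (hzt'.smul_const e)
      · filter_upwards [hevU] with n hn
        exact ⟨hn.1, (Ln.wl_spec hn).2⟩

theorem Ln.exists_loc (L : Ln X Λ u D κ p e c Γ₀ s) {x : EN N} (hx : x ∈ Yl X Λ u p e s) :
    ∃ W : EN N → ℂ, AnalyticAt ℂ W x ∧ ∀ᶠ y in 𝓝 x, y ∈ Yl X Λ u p e s → wl Λ u p e s y = W y := by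
  obtain ⟨v, hv, hv'⟩ := L.tor.loc x hx.1
  obtain ⟨i, hi⟩ : ∃ i, e i ≠ 0 := Function.ne_iff.1 L.e_ne
  set l₀ : Vd (k + 1) := v x - (p + wl Λ u p e s x • e) with hl₀
  have hl₀Λ : l₀ ∈ Λ := by
    have h1 : l₀ = (u x - (p + wl Λ u p e s x • e)) - (u x - v x) := by
      rw [hl₀]
      abel
    rw [h1]
    exact Λ.sub_mem (Ln.wl_spec hx).2 (hv'.self_of_nhds hx.1)
  have he : 0 < ‖e‖ := norm_pos_iff.2 L.e_ne
  have hpos : 0 < 2 * s * ‖e‖ := by
    have := L.pos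
    positivity
  have hproj : AnalyticAt ℂ (fun y : EN N => (v y - l₀ - p) i) x := by
    have h1 : AnalyticAt ℂ (fun y : EN N => v y - l₀ - p) x := (hv.sub analyticAt_const).sub analyticAt_const
    exact ((ContinuousLinearMap.proj (R := ℂ) (φ := fun _ : Fin (k + 1) => ℂ) i).analyticAt _).fun_comp h1
  refine ⟨fun y => (v y - l₀ - p) i / e i, hproj.div analyticAt_const hi, ?_⟩
  have hcont : ∀ᶠ y in 𝓝 x, ‖v y - v x‖ < 2 * s * ‖e‖ := by
    have h1 := hv.continuousAt.eventually (Metric.ball_mem_nhds (v x) hpos)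
    filter_upwards [h1] with y hy
    rwa [dist_eq_norm] at hy
  filter_upwards [hv', hcont] with y h1 h2 hy
  have h3 := Ln.wl_spec hy
  have h4 : v y - l₀ - (p + wl Λ u p e s y • e) ∈ Λ := by
    have h5 : v y - l₀ - (p + wl Λ u p e s y • e) = (u y - (p + wl Λ u p e s y • e)) - (u y - v y) - l₀ := by abel
    rw [h5]
    exact Λ.sub_mem (Λ.sub_mem h3.2 (h1 hy.1)) hl₀Λ
  have h6 : v y - l₀ - (p + wl Λ u p e s y • e) = 0 := by
    refine L.small _ h4 ?_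
    have h7 : v y - l₀ - (p + wl Λ u p e s y • e) = (v y - v x) + (wl Λ u p e s x - wl Λ u p e s y) • e := by
      rw [hl₀, sub_smul]
      abel
    rw [h7]
    refine (norm_add_le _ _).trans ?_
    rw [norm_smul]
    have h8 : ‖wl Λ u p e s x - wl Λ u p e s y‖ ≤ s + s := (norm_sub_le _ _).trans (add_le_add (Ln.wl_spec hx).1 h3.1)
    have h9 := mul_le_mul_of_nonneg_right h8 (norm_nonneg e)
    linarith
  have h7 : v y - l₀ - p = wl Λ u p e s y • e := by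
    have h8 : v y - l₀ - p = (v y - l₀ - (p + wl Λ u p e s y • e)) + wl Λ u p e s y • e := by abel
    rw [h8, h6, zero_add]
  show wl Λ u p e s y = (v y - l₀ - p) i / e i
  rw [h7, Pi.smul_apply, smul_eq_mul, mul_div_cancel_right₀ _ hi]

theorem Ln.torusMap (L : Ln X Λ u D κ p e c Γ₀ s) : Pool.Agent.H62.EF.TorusMap (Yl X Λ u p e s) Γ₀ (wl Λ u p e s) := by
  refine ⟨fun x hx a ha => ?_, fun x hx => ?_⟩
  · rw [L.wl_smul hx ha, sub_self]
    exact Γ₀.zero_mem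
  · obtain ⟨W, hW, hW'⟩ := L.exists_loc hx
    refine ⟨W, hW, ?_⟩
    filter_upwards [hW'] with y hy hyY
    rw [hy hyY, sub_self]
    exact Γ₀.zero_mem

end Pool.Agent.TG
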