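import Pool.Agent.TG.Y.Br
import Pool.Agent.H62.EL.Cp

/-!
# TG Y YCap: uniform charts of the slab over an annulus

At `x₀ ∈ Y` with `z₀ = wl x₀`, `r₁ ≤ ‖z₀‖ ≤ r₂`: `p + z₀ • e ∉ D` (`L.off`), so `x₀` is `IsStr` (`L.sub`), and `x₀ ∈ T.W k'` for some `k'` (`TubeG.cover`, `z₀ ∈ ball 0 s'`, `wl x₀ - z₀ = 0`).  `T.W k'` is an open cone: there is `η > 0` such that `x ∈ X`, `dist (pr x) (pr x₀) < η` implies `x ∈ T.W k'`
(`near_of_pr`, `TubeG.W_smul`).  `exists_str_chart` with this `η`: `χ`, `c' = p + z₀ • e`, `χ.q x₀ = 0`; `slice_chart` (`q₀ = 0`): `χ'`, all points of which are points of `χ`, hence in `T.W k'`; `x₀ ∈ χ'.U`, `χ'.q x₀ = 0`.  `Pool.Agent.H62.EL.cap_of_small` for `Y` with `η = 2 s`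
(`‖mo z₀ r 1 0 y - z₀‖ = ‖r y.1‖ < 2 s` from `‖z₀ + r y.1‖ < s`, `‖z₀‖ < s`; `L.big`) gives `r_{x₀} > 0` with `EL.Cap .. z₀ (pr x₀) r_{x₀}`.
Compactness: the set `{x ∈ Y : ‖x‖ = 1, r₁ ≤ ‖wl x‖ ≤ r₂}` is compact (`Ln.isCone`, `compact_unit`; `wl` is continuous on `Y` by `Ln.exists_loc`); if the assertion fails there are `x_n` in it without a chart for `r = 1/(n+1)`, `x_n → x₀` along a subsequence, `wl x_n → wl x₀`, `pr x_n → pr x₀`, and the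
chart of `x₀` is `EL.Cap` at `(wl x_n, pr x_n)` with radius `r_{x₀} / 2` for large `n`: contradiction.  (An arbitrary `x₀ ∈ Y` is a multiple of a unit vector: `wl_smul`, `pr_smul`.)
-/

set_option autoImplicit false

open Topology Filter Metric

namespace Pool.Agent.TG

open Pool.Agent.H36.BP (EN fs wd)
open Pool.Agent.H14.PP (IsCone CurveAt Tan)
open Pool.Agent.H62.EF (MN pr)
open Pool.Agent.AD (Vd Chart Charts IsGerm)

variable {N k : ℕ}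


variable {X : Set (EN N)} {Λ : AddSubgroup (Vd (k + 1))} {u : EN N → Vd (k + 1)} {D B : Set (Vd (k + 1))}
  {κ : Vd (k + 1) → Vd (k + 1)} {p e : Vd (k + 1)} {c : ℂ → Vd (k + 1)} {Γ₀ : AddSubgroup ℂ} {s : ℝ}

/-- the chart at one point -/
private theorem ycap_at (L : Ln X Λ u D κ p e c Γ₀ s) {T : Pool.Agent.H62.EL.TubeData (Yl X Λ u p e s)} {s' η : ℝ}
    (hT : Pool.Agent.H62.EL.TubeG Γ₀ (wl Λ u p e s) 0 s' η T) {x₀ : EN N} (hx₀ : x₀ ∈ Yl X Λ u p e s) (h0 : wl Λ u p e s x₀ ≠ 0)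
    (hs : ‖wl Λ u p e s x₀‖ < s) (hs' : ‖wl Λ u p e s x₀‖ < s') :
    ∃ (r : ℝ) (χ : Pool.Agent.H14.PP.Chart (Yl X Λ u p e s)) (c' : ℂ) (ρ : ℝ) (k' : Fin T.m), 0 < r ∧
        Pool.Agent.H62.EL.Cap Γ₀ (wl Λ u p e s) χ c' ρ (wl Λ u p e s x₀) (pr x₀) r ∧ ∀ y ∈ ball (0 : ℂ × ℂ) 2, χ.σ y ∈ T.W k' := by
  set z₀ := wl Λ u p e s x₀ with hz₀
  have hspec := Ln.wl_spec hx₀
  have hoff := L.off z₀ h0 hs.le
  have hstr := L.sub _ hoff x₀ hx₀.1 hspec.2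
  have hz₀Γ : wl Λ u p e s x₀ - z₀ ∈ Γ₀ := by
    rw [hz₀, sub_self]
    exact Γ₀.zero_mem
  obtain ⟨k', hk'⟩ := hT.cover z₀ (mem_ball_zero_iff.2 hs') x₀ hx₀ hz₀Γ
  have hx₀0 : x₀ ≠ 0 := ne_zero L.cone hx₀.1
  obtain ⟨η₁, hη₁, hnear⟩ := Pool.Agent.H62.EF.near_of_pr hx₀0 ((hT.W_open k').mem_nhds hk')
  have hW : ∀ x : EN N, x ≠ 0 → dist (pr x) (pr x₀) < η₁ → x ∈ T.W k' := by
    intro x hx hd
    obtain ⟨a, ha, hax⟩ := hnear x hx hd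
    have h1 := hT.W_smul k' _ hax a⁻¹ (inv_ne_zero ha)
    rwa [smul_smul, inv_mul_cancel₀ ha, one_smul] at h1
  obtain ⟨χ, ρ, hU, hq0, hStr, hχ⟩ := exists_str_chart L.cone L.tor hstr hη₁
  have hms0 : ms (p + z₀ • e) ρ (0 : Vd (k + 2)) = p + z₀ • e := by
    have h1 : tl (0 : Vd (k + 2)) = 0 := rfl
    unfold ms
    rw [h1, smul_zero, add_zero]
  obtain ⟨χ', r, hMon, hσ, hsl⟩ := L.slice_chart χ hStr (q₀ := 0) (mem_ball_self two_pos) hs hms0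
  obtain ⟨hU', hq'⟩ := hsl x₀ hx₀ hU rfl (by rw [hq0]; exact hms0)
  have hq'0 : χ'.q x₀ = 0 := by
    rw [hq', hq0]
    rfl
  have hσW : ∀ y ∈ ball (0 : ℂ × ℂ) 2, χ'.σ y ∈ T.W k' := by
    intro y hy
    obtain ⟨-, h2, h3⟩ := hσ y hy
    rw [h3]
    exact hW _ (ne_zero L.cone (χ.σ_mem _ h2).1) (hχ _ h2).1
  obtain ⟨r', hr', hCap⟩ := Pool.Agent.H62.EL.cap_of_small L.isCone L.torusMap hx₀ hz₀Γ hMon hU' hq'0 (η := 2 * s)
    (fun l hl hln => L.big l hl (by linarith [L.pos])) (fun y hy => by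
      obtain ⟨h1, -, -⟩ := hσ y hy
      have h2 : Pool.Agent.H62.EL.mo z₀ r 1 0 y - z₀ = (z₀ + r * y.1) - z₀ := by
        unfold Pool.Agent.H62.EL.mo
        ring
      rw [h2]
      refine (norm_sub_le _ _).trans_lt ?_
      linarith)
  exact ⟨r', χ', z₀, r, k', hr', hCap, hσW⟩

theorem Ln.wl_cont (L : Ln X Λ u D κ p e c Γ₀ s) : ContinuousOn (wl Λ u p e s) (Yl X Λ u p e s) := by
  intro x hx
  obtain ⟨W, hW, hW'⟩ := L.exists_loc hx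
  have h1 : ContinuousWithinAt W (Yl X Λ u p e s) x := hW.continuousAt.continuousWithinAt
  refine h1.congr_of_eventuallyEq ?_ ?_
  · filter_upwards [nhdsWithin_le_nhds hW', self_mem_nhdsWithin] with y hy hyY
    exact hy hyY
  · exact hW'.self_of_nhds hx

theorem Ln.ycap (L : Ln X Λ u D κ p e c Γ₀ s) {T : Pool.Agent.H62.EL.TubeData (Yl X Λ u p e s)} {s' η : ℝ}
    (hT : Pool.Agent.H62.EL.TubeG Γ₀ (wl Λ u p e s) 0 s' η T) {r₁ r₂ : ℝ} (hr₁ : 0 < r₁) (hr₂ : r₂ < s) (hr₂' : r₂ < s') :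
    ∃ r : ℝ, 0 < r ∧ ∀ x₀ ∈ Yl X Λ u p e s, r₁ ≤ ‖wl Λ u p e s x₀‖ → ‖wl Λ u p e s x₀‖ ≤ r₂ →
      ∃ (χ : Pool.Agent.H14.PP.Chart (Yl X Λ u p e s)) (c' : ℂ) (ρ : ℝ) (k' : Fin T.m),
        Pool.Agent.H62.EL.Cap Γ₀ (wl Λ u p e s) χ c' ρ (wl Λ u p e s x₀) (pr x₀) r ∧ ∀ y ∈ ball (0 : ℂ × ℂ) 2, χ.σ y ∈ T.W k' := by
  set K : Set (EN N) := (Yl X Λ u p e s ∩ sphere (0 : EN N) 1) ∩ (fun x => ‖wl Λ u p e s x‖) ⁻¹' Set.Icc r₁ r₂ with hK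
  have hK0 : IsCompact (Yl X Λ u p e s ∩ sphere (0 : EN N) 1) := compact_unit L.isCone
  have hcont : ContinuousOn (fun x => ‖wl Λ u p e s x‖) (Yl X Λ u p e s ∩ sphere (0 : EN N) 1) :=
    (L.wl_cont.mono Set.inter_subset_left).norm
  have hKc : IsCompact K := hK0.of_isClosed_subset (hcont.preimage_isClosed_of_isClosed hK0.isClosed isClosed_Icc) Set.inter_subset_left
  have hmain : ∃ r : ℝ, 0 < r ∧ ∀ x₀ ∈ K, ∃ (χ : Pool.Agent.H14.PP.Chart (Yl X Λ u p e s)) (c' : ℂ) (ρ : ℝ) (k' : Fin T.m),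
        Pool.Agent.H62.EL.Cap Γ₀ (wl Λ u p e s) χ c' ρ (wl Λ u p e s x₀) (pr x₀) r ∧ ∀ y ∈ ball (0 : ℂ × ℂ) 2, χ.σ y ∈ T.W k' := by
    refine hKc.induction_on (p := fun A => ∃ r : ℝ, 0 < r ∧ ∀ x₀ ∈ A, ∃ (χ : Pool.Agent.H14.PP.Chart (Yl X Λ u p e s)) (c' : ℂ) (ρ : ℝ) (k' : Fin T.m),
        Pool.Agent.H62.EL.Cap Γ₀ (wl Λ u p e s) χ c' ρ (wl Λ u p e s x₀) (pr x₀) r ∧ ∀ y ∈ ball (0 : ℂ × ℂ) 2, χ.σ y ∈ T.W k')
      ⟨1, one_pos, fun x hx => absurd hx (Set.notMem_empty x)⟩ ?_ ?_ ?_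
    · rintro A A' hAA ⟨r, hr, h⟩
      exact ⟨r, hr, fun x hx => h x (hAA hx)⟩
    · rintro A A' ⟨r, hr, h⟩ ⟨r', hr', h'⟩
      refine ⟨min r r', lt_min hr hr', ?_⟩
      rintro x (hx | hx)
      · obtain ⟨χ, c', ρ, k', hc, hW⟩ := h x hx
        exact ⟨χ, c', ρ, k', ⟨hc.mon, fun z hz y hy hyz hd =>
          hc.cap z (closedBall_subset_closedBall (min_le_left _ _) hz) y hy hyz (hd.trans (min_le_left _ _))⟩, hW⟩
      · obtain ⟨χ, c', ρ, k', hc, hW⟩ := h' x hx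
        exact ⟨χ, c', ρ, k', ⟨hc.mon, fun z hz y hy hyz hd =>
          hc.cap z (closedBall_subset_closedBall (min_le_right _ _) hz) y hy hyz (hd.trans (min_le_right _ _))⟩, hW⟩
    · intro x hx
      have hxY : x ∈ Yl X Λ u p e s := hx.1.1
      have hx1 : r₁ ≤ ‖wl Λ u p e s x‖ := hx.2.1
      have hx2 : ‖wl Λ u p e s x‖ ≤ r₂ := hx.2.2
      obtain ⟨r, χ, c', ρ, k', hr, hc, hW⟩ := ycap_at L hT hxY (by
        intro h0
        rw [h0, norm_zero] at hx1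
        linarith) (lt_of_le_of_lt hx2 hr₂) (lt_of_le_of_lt hx2 hr₂')
      have h1 : ∀ᶠ y in 𝓝[K] x, ‖wl Λ u p e s y - wl Λ u p e s x‖ < r / 2 := by
        have h2 : ContinuousWithinAt (wl Λ u p e s) K x := (L.wl_cont x hxY).mono fun y hy => hy.1.1
        have h3 := h2.eventually (Metric.ball_mem_nhds _ (half_pos hr))
        filter_upwards [h3] with y hy
        rwa [dist_eq_norm] at hy
      have h2 : ∀ᶠ y in 𝓝[K] x, dist (pr y) (pr x) < r / 2 :=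
        nhdsWithin_le_nhds ((Pool.Agent.H62.EF.continuousAt_pr (ne_zero L.cone hxY.1)).eventually (Metric.ball_mem_nhds _ (half_pos hr)))
      refine ⟨{y | ‖wl Λ u p e s y - wl Λ u p e s x‖ < r / 2 ∧ dist (pr y) (pr x) < r / 2}, h1.and h2, r / 2, half_pos hr, ?_⟩
      rintro y ⟨hy1, hy2⟩
      refine ⟨χ, c', ρ, k', ⟨hc.mon, fun z hz w hw hwz hd => hc.cap z ?_ w hw hwz ?_⟩, hW⟩
      · rw [mem_closedBall, dist_eq_norm] at hz ⊢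
        have e1 : z - wl Λ u p e s x = (z - wl Λ u p e s y) + (wl Λ u p e s y - wl Λ u p e s x) := by ring
        rw [e1]
        refine (norm_add_le _ _).trans ?_
        linarith
      · have := dist_triangle (pr w) (pr y) (pr x)
        linarith
  obtain ⟨r, hr, h⟩ := hmain
  refine ⟨r, hr, fun x₀ hx₀ h1 h2 => ?_⟩
  obtain ⟨a, ha, haY, haS⟩ := exists_unit L.isCone hx₀
  have hw := L.wl_smul hx₀ ha
  obtain ⟨χ, c', ρ, k', hc, hW⟩ := h (a • x₀) ⟨⟨haY, haS⟩, by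
    show ‖wl Λ u p e s (a • x₀)‖ ∈ Set.Icc r₁ r₂
    rw [hw]
    exact ⟨h1, h2⟩⟩
  rw [hw, Pool.Agent.H62.EF.pr_smul x₀ ha] at hc
  exact ⟨χ, c', ρ, k', hc, hW⟩

end Pool.Agent.TG
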